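import Pool.Agent.H3.HK.Walks

set_option autoImplicit false

/-!
# The weighted numbers of walks which are subwords of a word
-/

namespace Pool.Agent.H3.HK

open Classical Relation

variable {V : Type} {T : V → V → Prop}

variable [LinearOrder V]

theorem NA_arc {k : V} {t : List V} : ∀ (a : List V) (z : V),
    (z :: (a ++ k :: t)).IsChain T → ReflTransGen T k z →
    NA T (z :: (a ++ k :: t)) = NA T (k :: t) := by
  intro a
  induction a with
  | nil =>
    intro z _ hk
    rw [List.nil_append, NA, if_pos hk]
  | cons w a ih =>
    intro z hc hk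
    rw [List.cons_append] at hc ⊢
    rw [List.isChain_cons_cons] at hc
    have hwk : ReflTransGen T w k := chain_reach hc.2 (by simp)
    rw [NA, if_pos (hwk.trans hk)]
    exact ih w hc.2 (hk.tail hc.1)

/-- Two walks with the same ends and the same arrows off the cycles are comparable. -/
theorem walk_sublist [Finite V] (h1 : Disj T) (h2 : NoPath T) : ∀ (q q' : List V) (k : V),
    (k :: q).IsChain T → (k :: q').IsChain T → (k :: q).getLast? = (k :: q').getLast? →
    cnt T (k :: q) ≤ cnt T (k :: q') → NA T (k :: q) = NA T (k :: q') →
    List.Sublist (k :: q) (k :: q') := by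
  intro q
  induction q with
  | nil =>
    intro q' k _ _ _ _ _
    exact List.cons_sublist_cons.2 (List.nil_sublist _)
  | cons x q ih =>
    intro q' k hc hc' hl hcnt hNA
    cases q' with
    | nil =>
      exfalso
      have := cnt_closed h1 hc (by rw [hl]; simp)
      simp only [cnt] at hcnt this
      omega
    | cons y q' =>
      by_cases hxy : x = y
      · subst hxy
        refine List.cons_sublist_cons.2 ?_
        refine ih q' x (List.isChain_cons_cons.1 hc).2 (List.isChain_cons_cons.1 hc').2 ?_ ?_ ?_
        · rwa [List.getLast?_cons_cons, List.getLast?_cons_cons] at hl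
        · rw [cnt, cnt] at hcnt
          omega
        · rw [NA, NA] at hNA
          split_ifs at hNA with h3
          · exact hNA
          · have h4 := NA_not_mem hc h3
            have h5 := NA_not_mem hc' h3
            have := congrArg (fun s => s.erase (k, x)) hNA
            simp only [Finset.erase_insert h4, Finset.erase_insert h5] at this
            exact this
      · by_cases hy : ReflTransGen T y k
        · have hx : ¬ ReflTransGen T x k := by
            intro hx
            exact hxy (h1 k x y (List.isChain_cons_cons.1 hc).1 (List.isChain_cons_cons.1 hc').1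
              hx hy)
          have h3 := cnt_compare h1 h2 hc' hc (fun h => hxy h.symm) hx hNA.symm
          have hm : (k, x) ∈ NA T (k :: y :: q') := by
            rw [← hNA, NA, if_neg hx]
            exact Finset.mem_insert_self _ _
          obtain ⟨-, a, b, hab⟩ := mem_NA hm
          cases a with
          | nil =>
            rw [List.nil_append] at hab
            injection hab with _ hab
            injection hab with hab _
            exact absurd hab.symm hxy
          | cons k' a =>
            rw [List.cons_append] at hab
            have hk : k = k' := by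
              injection hab
            subst hk
            have hcs : (k :: x :: b).IsChain T := by
              rw [hab, ← List.cons_append] at hc'
              exact (List.isChain_append.1 hc').2.1
            have hNA' : NA T (k :: y :: q') = NA T (k :: x :: b) := by
              rw [hab]
              rw [hab] at hc'
              exact NA_arc a k hc' ReflTransGen.refl
            have h4 := cnt_compare h1 h2 hc' hcs (fun h => hxy h.symm) hx hNA'
            have hls : (k :: x :: b).getLast? = (k :: y :: q').getLast? := by
              rw [hab, ← List.cons_append, List.getLast?_append_of_ne_nil]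
              simp
            have h5 := walk_inj h1 h2 (x :: q) (x :: b) k hc hcs (hl.trans hls.symm)
              (by rw [h3.2, h4.2]) (hNA.trans hNA')
            rw [h5, hab, ← List.cons_append]
            exact List.sublist_append_right _ _
        · have h3 := cnt_compare h1 h2 hc hc' hxy hy hNA
          omega

/-- The walks starting at `k` which are subwords of `w`. -/
noncomputable def SF [Fintype V] (T : V → V → Prop) : List V → V → Finset (List V)
  | [], _ => ∅
  | i :: w, k => if k = i then insert [i] ((Finset.univ.filter (T i)).biUnion fun j =>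
      (SF T w j).image (List.cons i)) else SF T w k

variable [Fintype V]

theorem SF_cons_self (i : V) (w : List V) : SF T (i :: w) i =
    insert [i] ((Finset.univ.filter (T i)).biUnion fun j => (SF T w j).image (List.cons i)) := by
  rw [SF, if_pos rfl]

theorem SF_cons_ne {i k : V} (h : k ≠ i) (w : List V) : SF T (i :: w) k = SF T w k := by
  rw [SF, if_neg h]

theorem mem_SF : ∀ (w : List V) (k : V) (p : List V), p ∈ SF T w k ↔
    (∃ q, p = k :: q) ∧ p.IsChain T ∧ List.Sublist p w := by
  intro w
  induction w with
  | nil =>
    intro k p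
    simp only [SF, Finset.notMem_empty, false_iff]
    rintro ⟨⟨q, rfl⟩, -, h⟩
    simp at h
  | cons i w ih =>
    intro k p
    by_cases h : k = i
    · subst h
      rw [SF_cons_self, Finset.mem_insert, Finset.mem_biUnion]
      constructor
      · rintro (rfl | ⟨j, hj, hp⟩)
        · exact ⟨⟨[], rfl⟩, List.isChain_singleton k, List.cons_sublist_cons.2 (List.nil_sublist _)⟩
        · rw [Finset.mem_image] at hp
          obtain ⟨p', hp', rfl⟩ := hp
          obtain ⟨⟨q, rfl⟩, h2, h3⟩ := (ih j p').1 hp'
          refine ⟨⟨_, rfl⟩, List.isChain_cons_cons.2 ⟨?_, h2⟩, List.cons_sublist_cons.2 h3⟩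
          simpa using hj
      · rintro ⟨⟨q, rfl⟩, h2, h3⟩
        cases q with
        | nil => exact Or.inl rfl
        | cons j q =>
          right
          rw [List.isChain_cons_cons] at h2
          refine ⟨j, by simpa using h2.1, Finset.mem_image_of_mem _ ?_⟩
          exact (ih j _).2 ⟨⟨q, rfl⟩, h2.2, List.cons_sublist_cons.1 h3⟩
    · rw [SF_cons_ne h, ih]
      constructor
      · rintro ⟨h1, h2, h3⟩
        exact ⟨h1, h2, h3.cons i⟩
      · rintro ⟨⟨q, rfl⟩, h2, h3⟩
        exact ⟨⟨q, rfl⟩, h2, sublist_of_cons_ne (fun e => h e.symm) h3⟩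

section MM

variable {R : Type} [CommRing R]

/-- The weighted numbers of walks which are subwords of `w`. -/
def MM (A : V → V → R) : List V → Matrix V V R
  | [] => 0
  | i :: w => Matrix.of fun k l => if k = i then (if i = l then 1 else 0) + ∑ j, A i j * MM A w j l
      else MM A w k l

theorem MM_cons_self (A : V → V → R) (i : V) (w : List V) (l : V) :
    MM A (i :: w) i l = (if i = l then 1 else 0) + ∑ j, A i j * MM A w j l := by
  rw [MM, Matrix.of_apply, if_pos rfl]

theorem MM_cons_ne (A : V → V → R) {i k : V} (h : k ≠ i) (w : List V) (l : V) :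
    MM A (i :: w) k l = MM A w k l := by
  rw [MM, Matrix.of_apply, if_neg h]

theorem MM_eq (a : V → V → R) : ∀ (w : List V) (k l : V),
    MM (fun k l => if T k l then a k l else 0) w k l =
      ∑ p ∈ SF T w k, if p.getLast? = some l then wt a p else 0 := by
  intro w
  induction w with
  | nil =>
    intro k l
    simp [MM, SF]
  | cons i w ih =>
    intro k l
    by_cases h : k = i
    · subst h
      rw [MM_cons_self, SF_cons_self, Finset.sum_insert, Finset.sum_biUnion]
      · congr 1
        · simp [wt]
        · rw [Finset.sum_filter]
          refine Finset.sum_congr rfl fun j _ => ?_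
          by_cases hj : T k j
          · rw [if_pos hj, if_pos hj, ih j, Finset.mul_sum, Finset.sum_image]
            · refine Finset.sum_congr rfl fun p hp => ?_
              obtain ⟨⟨q, rfl⟩, -⟩ := (mem_SF w j p).1 hp
              rw [List.getLast?_cons_cons]
              split_ifs
              · rw [wt]
              · rw [mul_zero]
            · intro x _ y _ hxy
              exact (List.cons_injective (a := k)) hxy
          · rw [if_neg hj, if_neg hj, zero_mul]
      · intro j _ j' _ hjj'
        rw [Function.onFun, Finset.disjoint_left]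
        intro p hp hp'
        rw [Finset.mem_image] at hp hp'
        obtain ⟨p1, h1, rfl⟩ := hp
        obtain ⟨p2, h2, h3⟩ := hp'
        obtain ⟨⟨q1, rfl⟩, -⟩ := (mem_SF w j p1).1 h1
        obtain ⟨⟨q2, rfl⟩, -⟩ := (mem_SF w j' p2).1 h2
        simp only [List.cons.injEq, true_and] at h3
        exact hjj' h3.1.symm
      · rw [Finset.mem_biUnion]
        rintro ⟨j, -, hp⟩
        rw [Finset.mem_image] at hp
        obtain ⟨p', hp', h3⟩ := hp
        obtain ⟨⟨q, rfl⟩, -⟩ := (mem_SF w j p').1 hp'
        simp at h3
    · rw [MM_cons_ne _ h, SF_cons_ne h, ih k l]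

end MM

/-- the weights: the arrows which lie on cycles have weight one -/
noncomputable def aC (T : V → V → Prop) (k j : V) : MvPolynomial (V × V) ℚ :=
  if ReflTransGen T j k then 1 else MvPolynomial.X (k, j)

/-- the exponent of a walk -/
noncomputable def mon (T : V → V → Prop) (p : List V) : V × V →₀ ℕ :=
  ∑ e ∈ NA T p, Finsupp.single e 1

theorem mon_apply (p : List V) (e : V × V) : mon T p e = if e ∈ NA T p then 1 else 0 := by
  rw [mon, Finsupp.finsetSum_apply]
  simp only [Finsupp.single_apply]
  rw [Finset.sum_ite_eq']

theorem mon_inj {p p' : List V} (h : mon T p = mon T p') : NA T p = NA T p' := by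
  ext e
  have := DFunLike.congr_fun h e
  rw [mon_apply, mon_apply] at this
  by_cases h1 : e ∈ NA T p <;> by_cases h2 : e ∈ NA T p' <;> simp_all

theorem wt_aC : ∀ (q : List V) (k : V), (k :: q).IsChain T →
    wt (aC T) (k :: q) = MvPolynomial.monomial (mon T (k :: q)) 1 := by
  intro q
  induction q with
  | nil =>
    intro k _
    simp [wt, mon, NA]
  | cons j q ih =>
    intro k hc
    rw [wt, ih j (List.isChain_cons_cons.1 hc).2, aC, mon, mon, NA]
    split_ifs with h
    · rw [one_mul]
    · rw [Finset.sum_insert (NA_not_mem hc h), MvPolynomial.X, MvPolynomial.monomial_mul, one_mul]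

/-- The weighted numbers of walks determine the element. -/
theorem MM_inj (hT : Oriented T) (h1 : Disj T) (h2 : NoPath T) {w w' : List V} (hw : Min T w)
    (hw' : Min T w')
    (h : MM (fun k l => if T k l then aC T k l else 0) w =
      MM (fun k l => if T k l then aC T k l else 0) w') : wd T w = wd T w' := by
  have hcoeff : ∀ (v : List V) (k l : V) (p : List V), MvPolynomial.coeff (mon T p)
      (MM (fun k l => if T k l then aC T k l else 0) v k l) =
      (((SF T v k).filter fun p' => p'.getLast? = some l ∧ NA T p' = NA T p).card : ℚ) := by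
    intro v k l p
    rw [MM_eq, MvPolynomial.coeff_sum, Finset.card_filter, Nat.cast_sum]
    refine Finset.sum_congr rfl fun p' hp' => ?_
    obtain ⟨⟨q, rfl⟩, h3, -⟩ := (mem_SF v k p').1 hp'
    rw [wt_aC q k h3]
    by_cases h4 : (k :: q).getLast? = some l
    · rw [if_pos h4, MvPolynomial.coeff_monomial]
      by_cases h5 : NA T (k :: q) = NA T p
      · rw [if_pos (by rw [mon, mon, h5]), if_pos ⟨h4, h5⟩, Nat.cast_one]
      · rw [if_neg fun e => h5 (mon_inj e), if_neg fun e => h5 e.2, Nat.cast_zero]
    · rw [if_neg h4, MvPolynomial.coeff_zero, if_neg fun e => h4 e.1, Nat.cast_zero]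
  have hcard : ∀ (k l : V) (p : List V),
      ((SF T w k).filter fun p' => p'.getLast? = some l ∧ NA T p' = NA T p).card =
      ((SF T w' k).filter fun p' => p'.getLast? = some l ∧ NA T p' = NA T p).card := by
    intro k l p
    have h3 := hcoeff w k l p
    rw [h, hcoeff w' k l p] at h3
    exact_mod_cast h3.symm
  -- comparison
  have hsub : ∀ (w w' : List V) (k : V), (∀ (l : V) (p : List V),
      ((SF T w k).filter fun p' => p'.getLast? = some l ∧ NA T p' = NA T p).card =
      ((SF T w' k).filter fun p' => p'.getLast? = some l ∧ NA T p' = NA T p).card) →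
      SF T w k ⊆ SF T w' k := by
    intro w w' k hcard p hp
    obtain ⟨⟨q, rfl⟩, h3, h4⟩ := (mem_SF w k p).1 hp
    obtain ⟨l, hl⟩ : ∃ l, (k :: q).getLast? = some l := by
      rw [← Option.isSome_iff_exists]
      simp
    by_contra hcon
    have hlt : ((SF T w' k).filter fun p' => p'.getLast? = some l ∧
        NA T p' = NA T (k :: q)) ⊂
        ((SF T w k).filter fun p' => p'.getLast? = some l ∧ NA T p' = NA T (k :: q)) := by
      refine Finset.ssubset_iff_subset_ne.2 ⟨?_, ?_⟩
      · intro p' hp'
        rw [Finset.mem_filter] at hp' ⊢
        obtain ⟨g1, g2, g3⟩ := hp'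
        obtain ⟨⟨q', rfl⟩, g4, g5⟩ := (mem_SF w' k p').1 g1
        refine ⟨?_, g2, g3⟩
        rw [mem_SF]
        refine ⟨⟨q', rfl⟩, g4, ?_⟩
        rcases le_total (cnt T (k :: q)) (cnt T (k :: q')) with h5 | h5
        · exfalso
          refine hcon ((mem_SF w' k _).2 ⟨⟨q, rfl⟩, h3, ?_⟩)
          exact (walk_sublist h1 h2 q q' k h3 g4 (hl.trans g2.symm) h5 g3.symm).trans g5
        · exact (walk_sublist h1 h2 q' q k g4 h3 (g2.trans hl.symm) h5 g3).trans h4
      · intro he
        have : (k :: q) ∈ ((SF T w k).filter fun p' => p'.getLast? = some l ∧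
            NA T p' = NA T (k :: q)) := Finset.mem_filter.2 ⟨hp, hl, rfl⟩
        rw [← he] at this
        exact hcon (Finset.mem_filter.1 this).1
    have := Finset.card_lt_card hlt
    rw [hcard] at this
    exact lt_irrefl _ this
  refine wd_eq_of_SW hT _ w w' rfl hw hw' ?_
  ext p
  constructor
  · rintro ⟨g1, g2, g3⟩
    refine ⟨g1, g2, ?_⟩
    cases p with
    | nil => exact absurd rfl g1
    | cons k q =>
      have := hsub w w' k (hcard k) ((mem_SF w k _).2 ⟨⟨q, rfl⟩, g2, g3⟩)
      exact ((mem_SF w' k _).1 this).2.2
  · rintro ⟨g1, g2, g3⟩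
    refine ⟨g1, g2, ?_⟩
    cases p with
    | nil => exact absurd rfl g1
    | cons k q =>
      have := hsub w' w k (fun l p => (hcard k l p).symm)
        ((mem_SF w' k _).2 ⟨⟨q, rfl⟩, g2, g3⟩)
      exact ((mem_SF w k _).1 this).2.2

end Pool.Agent.H3.HK
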