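import Mathlib

set_option autoImplicit false
set_option linter.dupNamespace false

/-!
# Hecke-Kiselman monoids: definitions
-/

namespace Pool.Agent.H3.HK

variable {V : Type}

/-- The defining relations of the Hecke-Kiselman monoid of the digraph `T` (`T i j` means that
there is an arrow `i → j`). -/
inductive Rel (T : V → V → Prop) : FreeMonoid V → FreeMonoid V → Prop
  | idem (i : V) : Rel T (.of i * .of i) (.of i)
  | comm (i j : V) : i ≠ j → ¬ T i j → ¬ T j i → Rel T (.of i * .of j) (.of j * .of i)
  | braid (i j : V) : i ≠ j → T i j → T j i →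
      Rel T (.of i * .of j * .of i) (.of j * .of i * .of j)
  | arrowL (i j : V) : i ≠ j → T i j → ¬ T j i → Rel T (.of i * .of j * .of i) (.of i * .of j)
  | arrowR (i j : V) : i ≠ j → T i j → ¬ T j i → Rel T (.of j * .of i * .of j) (.of i * .of j)

/-- The Hecke-Kiselman monoid of the digraph `T`. -/
abbrev HK (T : V → V → Prop) : Type := PresentedMonoid (Rel T)

/-- The least `d` such that the Hecke-Kiselman monoid of `T` embeds, as a semigroup, into the
`d × d` matrices over `R` (`⊤` if there is none). -/
noncomputable def deg (R : Type) [Ring R] (T : V → V → Prop) : ℕ∞ :=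
  sInf {d : ℕ∞ | ∃ n : ℕ, d = n ∧ ∃ φ : HK T →ₙ* Matrix (Fin n) (Fin n) R, Function.Injective φ}

/-- the generators -/
def gen (T : V → V → Prop) (i : V) : HK T := PresentedMonoid.of (Rel T) i

/-- the element given by a word -/
def wd (T : V → V → Prop) (w : List V) : HK T := (w.map (gen T)).prod

section basic

variable {T : V → V → Prop}

theorem rel_eq {a b : FreeMonoid V} (h : Rel T a b) :
    PresentedMonoid.mk (Rel T) a = PresentedMonoid.mk (Rel T) b :=
  PresentedMonoid.mk_eq_mk_of_rel h

theorem gen_idem (i : V) : gen T i * gen T i = gen T i := rel_eq (Rel.idem i)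

theorem gen_comm {i j : V} (h : i ≠ j) (h1 : ¬ T i j) (h2 : ¬ T j i) :
    gen T i * gen T j = gen T j * gen T i := rel_eq (Rel.comm i j h h1 h2)

theorem gen_L {i j : V} (h : i ≠ j) (h1 : T i j) (h2 : ¬ T j i) :
    gen T i * gen T j * gen T i = gen T i * gen T j := rel_eq (Rel.arrowL i j h h1 h2)

theorem gen_R {i j : V} (h : i ≠ j) (h1 : T i j) (h2 : ¬ T j i) :
    gen T j * gen T i * gen T j = gen T i * gen T j := rel_eq (Rel.arrowR i j h h1 h2)

@[simp] theorem wd_nil : wd T [] = 1 := rfl

@[simp] theorem wd_cons (i : V) (w : List V) : wd T (i :: w) = gen T i * wd T w := by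
  simp [wd]

@[simp] theorem wd_append (w w' : List V) : wd T (w ++ w') = wd T w * wd T w' := by
  simp [wd]

theorem exists_wd (x : HK T) : ∃ w, wd T w = x := by
  obtain ⟨a, rfl⟩ := PresentedMonoid.surjective_mk x
  induction a using FreeMonoid.recOn with
  | one => exact ⟨[], rfl⟩
  | of_mul i a ih =>
    obtain ⟨w, hw⟩ := ih
    refine ⟨i :: w, ?_⟩
    rw [wd_cons, hw]
    rfl

end basic

end Pool.Agent.H3.HK
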