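import Pool.Agent.H3.HK.Walks

set_option autoImplicit false

/-!
# Algebraically independent weights which make the update representation faithful
-/

namespace Pool.Agent.H3.HK

open Classical Relation

variable {V : Type} {T : V → V → Prop}

/-- number of occurrences of the arrows in a walk -/
noncomputable def arr : List V → (V × V →₀ ℕ)
  | [] => 0
  | [_] => 0
  | k :: j :: q => Finsupp.single (k, j) 1 + arr (j :: q)

theorem mem_arr : ∀ {p : List V} {x y : V}, arr p (x, y) ≠ 0 ↔ ∃ a b, p = a ++ x :: y :: b := by
  intro p
  induction p with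
  | nil => intro x y; simp [arr]
  | cons k p ih =>
    intro x y
    cases p with
    | nil =>
      simp only [arr, Finsupp.coe_zero, Pi.zero_apply, ne_eq, not_true_eq_false, false_iff]
      rintro ⟨a, b, h⟩
      have := congrArg List.length h
      simp at this
      omega
    | cons j q =>
      rw [arr, Finsupp.add_apply, Finsupp.single_apply]
      constructor
      · intro h
        by_cases h1 : (k, j) = (x, y)
        · simp only [Prod.mk.injEq] at h1
          obtain ⟨rfl, rfl⟩ := h1
          exact ⟨[], q, rfl⟩
        · rw [if_neg h1, zero_add] at h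
          obtain ⟨a, b, h2⟩ := ih.1 h
          exact ⟨k :: a, b, by rw [h2]; rfl⟩
      · rintro ⟨a, b, h⟩
        cases a with
        | nil =>
          simp only [List.nil_append, List.cons.injEq] at h
          obtain ⟨rfl, rfl, -⟩ := h
          simp
        | cons a0 a =>
          simp only [List.cons_append, List.cons.injEq] at h
          have := ih.2 ⟨a, b, h.2⟩
          omega

theorem arr_inj (h1 : Disj T) : ∀ (q q' : List V) (k : V), (k :: q).IsChain T →
    (k :: q').IsChain T → arr (k :: q) = arr (k :: q') → q = q' := by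
  have hcons : ∀ (k x : V) (q : List V), arr (k :: x :: q) ≠ 0 := by
    intro k x q h
    have h2 : arr (k :: x :: q) (k, x) ≠ 0 := mem_arr.2 ⟨[], q, rfl⟩
    rw [h] at h2
    exact h2 rfl
  -- the comparison
  have key : ∀ (k x y : V) (q q' : List V), (k :: x :: q).IsChain T → (k :: y :: q').IsChain T →
      x ≠ y → arr (k :: x :: q) = arr (k :: y :: q') → ReflTransGen T y k := by
    intro k x y q q' _ hc' hxy h
    have h2 : arr (k :: y :: q') (k, x) ≠ 0 := by
      rw [← h]
      exact mem_arr.2 ⟨[], q, rfl⟩
    obtain ⟨a, b, hab⟩ := mem_arr.1 h2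
    cases a with
    | nil =>
      rw [List.nil_append] at hab
      injection hab with _ hab
      injection hab with hab _
      exact absurd hab.symm hxy
    | cons a0 a =>
      rw [List.cons_append] at hab
      injection hab with _ hab
      refine chain_reach (List.isChain_cons_cons.1 hc').2 ?_
      rw [hab]
      simp
  intro q
  induction q with
  | nil =>
    intro q' k _ _ h
    cases q' with
    | nil => rfl
    | cons y q' => exact absurd h.symm (hcons k y q')
  | cons x q ih =>
    intro q' k hc hc' h
    cases q' with
    | nil => exact absurd h (hcons k x q)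
    | cons y q' =>
      by_cases hxy : x = y
      · subst hxy
        congr 1
        refine ih q' x (List.isChain_cons_cons.1 hc).2 (List.isChain_cons_cons.1 hc').2 ?_
        rw [arr, arr] at h
        exact add_left_cancel h
      · exfalso
        exact hxy (h1 k x y (List.isChain_cons_cons.1 hc).1 (List.isChain_cons_cons.1 hc').1
          (key k y x q' q hc' hc (fun e => hxy e.symm) h.symm) (key k x y q q' hc hc' hxy h))

variable [Fintype V] {R : Type} [CommRing R] [Algebra ℚ R]

theorem wt_aeval (X : V × V → R) : ∀ p : List V,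
    wt (fun k j => X (k, j)) p = MvPolynomial.aeval X (MvPolynomial.monomial (arr p) (1 : ℚ)) := by
  intro p
  induction p with
  | nil => simp [wt, arr]
  | cons k p ih =>
    cases p with
    | nil => simp [wt, arr]
    | cons j q =>
      rw [wt, ih, arr]
      have : MvPolynomial.monomial (Finsupp.single (k, j) 1 + arr (j :: q)) (1 : ℚ) =
          MvPolynomial.X (k, j) * MvPolynomial.monomial (arr (j :: q)) (1 : ℚ) := by
        rw [MvPolynomial.X, MvPolynomial.monomial_mul, one_mul]
      rw [this, map_mul, MvPolynomial.aeval_X]

/-- The update representation with algebraically independent weights is faithful if the directed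
cycles are disjoint. -/
theorem repX_injective (hT : Oriented T) (h1 : Disj T) (X : V × V → R)
    (hX : AlgebraicIndependent ℚ X) :
    Function.Injective (rep hT (fun k j => X (k, j))) := by
  refine rep_injective hT _ fun k l S S' hS hS' hsum => ?_
  simp only [wt_aeval, ← map_sum] at hsum
  have hpoly := hX hsum
  have hinj : ∀ p, ((∃ q, p = k :: q) ∧ p.IsChain T ∧ p.getLast? = some l) →
      ∀ p', ((∃ q, p' = k :: q) ∧ p'.IsChain T ∧ p'.getLast? = some l) →
      arr p = arr p' → p = p' := by
    rintro p ⟨⟨q, rfl⟩, hc, -⟩ p' ⟨⟨q', rfl⟩, hc', -⟩ h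
    rw [arr_inj h1 q q' k hc hc' h]
  have hcoeff : ∀ S : Finset (List V), (∀ p ∈ S, (∃ q, p = k :: q) ∧ p.IsChain T ∧
      p.getLast? = some l) → ∀ p, ((∃ q, p = k :: q) ∧ p.IsChain T ∧ p.getLast? = some l) →
      MvPolynomial.coeff (arr p) (∑ p ∈ S, MvPolynomial.monomial (arr p) (1 : ℚ)) =
        if p ∈ S then 1 else 0 := by
    intro S hS p hp
    rw [MvPolynomial.coeff_sum]
    have : ∀ p' ∈ S, MvPolynomial.coeff (arr p) (MvPolynomial.monomial (arr p') (1 : ℚ)) =
        if p' = p then 1 else 0 := by
      intro p' hp'
      rw [MvPolynomial.coeff_monomial]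
      by_cases h : p' = p
      · rw [if_pos (by rw [h]), if_pos h]
      · rw [if_neg fun e => h (hinj p' (hS p' hp') p hp e), if_neg h]
    rw [Finset.sum_congr rfl this, Finset.sum_ite_eq']
  ext p
  constructor
  · intro hp
    have e1 := hcoeff S hS p (hS p hp)
    have e2 := hcoeff S' hS' p (hS p hp)
    rw [hpoly, e2, if_pos hp] at e1
    by_contra h
    rw [if_neg h] at e1
    exact zero_ne_one e1
  · intro hp
    have e1 := hcoeff S hS p (hS' p hp)
    have e2 := hcoeff S' hS' p (hS' p hp)
    rw [hpoly, e2, if_pos hp] at e1
    by_contra h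
    rw [if_neg h] at e1
    exact one_ne_zero e1

theorem exists_indep (W : Type) [Finite W] : ∃ X : W → ℂ, AlgebraicIndependent ℚ X := by
  obtain ⟨ι, x, hx⟩ := exists_isTranscendenceBasis' ℚ ℂ
  have hinf : Infinite ι := by
    rw [Cardinal.infinite_iff]
    have h1 := IsAlgClosed.cardinal_eq_cardinal_transcendence_basis_of_aleph0_lt' x hx
      (by simp) (by
        rw [Cardinal.mk_complex]
        exact Cardinal.aleph0_lt_continuum)
    rw [← h1, Cardinal.mk_complex]
    exact Cardinal.aleph0_le_continuum
  obtain ⟨f⟩ : Nonempty (W ↪ ι) := by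
    have := Fintype.ofFinite W
    exact ⟨(Fintype.equivFin W).toEmbedding.trans (Infinite.natEmbedding ι |> fun g =>
      ⟨fun i => g i, fun i j h => Fin.ext (g.injective h)⟩)⟩
  exact ⟨x ∘ f, hx.1.comp f f.injective⟩

end Pool.Agent.H3.HK
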