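import Pool.Agent.H3.HK.Walks

set_option autoImplicit false

/-!
# Integer weights which make the update representation faithful
-/

namespace Pool.Agent.H3.HK

open Classical Relation

variable {V : Type} {T : V → V → Prop} [LinearOrder V] [Fintype V]

/-- index of an arrow -/
noncomputable def idx (e : V × V) : ℕ := (Fintype.equivFin (V × V) e : ℕ)

theorem idx_injective : Function.Injective (idx (V := V)) := by
  intro e e' h
  exact (Fintype.equivFin (V × V)).injective (Fin.ext h)

theorem idx_lt (e : V × V) : idx e < Fintype.card (V × V) := (Fintype.equivFin (V × V) e).2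

/-- exponent of an arrow -/
noncomputable def expo (T : V → V → Prop) (k j : V) : ℕ :=
  2 ^ Fintype.card (V × V) * num T k j + if ReflTransGen T j k then 0 else 2 ^ idx (k, j)

/-- exponent of a walk -/
noncomputable def hexp (T : V → V → Prop) : List V → ℕ
  | [] => 0
  | [_] => 0
  | k :: j :: q => expo T k j + hexp T (j :: q)

/-- the integer weights -/
noncomputable def aZ (T : V → V → Prop) (k j : V) : ℤ := 2 ^ expo T k j

theorem wt_aZ : ∀ p : List V, wt (aZ T) p = 2 ^ hexp T p := by
  intro p
  induction p with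
  | nil => simp [wt, hexp]
  | cons k p ih =>
    cases p with
    | nil => simp [wt, hexp]
    | cons j q => rw [wt, hexp, ih, aZ, pow_add]

theorem hexp_eq : ∀ (q : List V) (k : V), (k :: q).IsChain T →
    hexp T (k :: q) = 2 ^ Fintype.card (V × V) * cnt T (k :: q) +
      ∑ e ∈ NA T (k :: q), 2 ^ idx e := by
  intro q
  induction q with
  | nil => intro k _; simp [hexp, cnt, NA]
  | cons j q ih =>
    intro k hc
    rw [hexp, ih j (List.isChain_cons_cons.1 hc).2, cnt, NA, expo]
    split_ifs with h
    · ring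
    · rw [Finset.sum_insert (NA_not_mem hc h)]
      ring

theorem hexp_inj (h1 : Disj T) (h2 : NoPath T) {q q' : List V} {k : V}
    (hc : (k :: q).IsChain T) (hc' : (k :: q').IsChain T)
    (hl : (k :: q).getLast? = (k :: q').getLast?)
    (h : hexp T (k :: q) = hexp T (k :: q')) : q = q' := by
  rw [hexp_eq q k hc, hexp_eq q' k hc'] at h
  have himg : ∀ s : Finset (V × V), ∑ e ∈ s, 2 ^ idx e = ∑ i ∈ s.image idx, 2 ^ i := by
    intro s
    rw [Finset.sum_image]
    exact fun x _ y _ hxy => idx_injective hxy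
  have hlt : ∀ s : Finset (V × V), ∑ e ∈ s, 2 ^ idx e < 2 ^ Fintype.card (V × V) := by
    intro s
    rw [himg]
    refine Nat.geomSum_lt le_rfl fun i hi => ?_
    rw [Finset.mem_image] at hi
    obtain ⟨e, -, rfl⟩ := hi
    exact idx_lt e
  have g1 := hlt (NA T (k :: q))
  have g2 := hlt (NA T (k :: q'))
  have hN : 0 < 2 ^ Fintype.card (V × V) := by positivity
  have hcnt : cnt T (k :: q) = cnt T (k :: q') := by
    have e1 := congrArg (· / 2 ^ Fintype.card (V × V)) h
    simp only [Nat.mul_add_div hN, Nat.div_eq_of_lt g1, Nat.div_eq_of_lt g2] at e1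
    simpa using e1
  have hsum : ∑ e ∈ NA T (k :: q), 2 ^ idx e = ∑ e ∈ NA T (k :: q'), 2 ^ idx e := by
    rw [hcnt] at h
    omega
  rw [himg, himg] at hsum
  have hset := Finset.geomSum_injective le_rfl hsum
  have hNA := Finset.image_injective idx_injective hset
  exact walk_inj h1 h2 q q' k hc hc' hl hcnt hNA

/-- The update representation with the integer weights is faithful. -/
theorem repZ_injective (hT : Oriented T) (h1 : Disj T) (h2 : NoPath T) :
    Function.Injective (rep hT (aZ T)) := by
  refine rep_injective hT _ fun k l S S' hS hS' hsum => ?_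
  simp only [wt_aZ] at hsum
  have hinj : ∀ p, ((∃ q, p = k :: q) ∧ p.IsChain T ∧ p.getLast? = some l) →
      ∀ p', ((∃ q, p' = k :: q) ∧ p'.IsChain T ∧ p'.getLast? = some l) →
      hexp T p = hexp T p' → p = p' := by
    rintro p ⟨⟨q, rfl⟩, hc, hl⟩ p' ⟨⟨q', rfl⟩, hc', hl'⟩ h
    rw [hexp_inj h1 h2 hc hc' (hl.trans hl'.symm) h]
  have e1 : ∀ S : Finset (List V), (∀ p ∈ S, (∃ q, p = k :: q) ∧ p.IsChain T ∧
      p.getLast? = some l) → ∑ p ∈ S, (2 : ℤ) ^ hexp T p =
      ((∑ i ∈ S.image (hexp T), 2 ^ i : ℕ) : ℤ) := by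
    intro S hS
    rw [Finset.sum_image]
    · push_cast
      rfl
    · intro x hx y hy hxy
      exact hinj x (hS x hx) y (hS y hy) hxy
  rw [e1 S hS, e1 S' hS'] at hsum
  have hset := Finset.geomSum_injective le_rfl (by exact_mod_cast hsum :
    (fun s : Finset ℕ => ∑ i ∈ s, 2 ^ i) (S.image (hexp T)) =
    (fun s : Finset ℕ => ∑ i ∈ s, 2 ^ i) (S'.image (hexp T)))
  ext p
  constructor
  · intro hp
    have : hexp T p ∈ S'.image (hexp T) := by
      rw [← hset]
      exact Finset.mem_image_of_mem _ hp
    obtain ⟨p', hp', h3⟩ := Finset.mem_image.1 this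
    rw [← hinj p' (hS' p' hp') p (hS p hp) h3]
    exact hp'
  · intro hp
    have : hexp T p ∈ S.image (hexp T) := by
      rw [hset]
      exact Finset.mem_image_of_mem _ hp
    obtain ⟨p', hp', h3⟩ := Finset.mem_image.1 this
    rw [← hinj p' (hS p' hp') p (hS' p hp) h3]
    exact hp'

end Pool.Agent.H3.HK
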