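import Pool.Agent.H3.HK.UpperTwo
import Pool.Agent.H3.HK.Upper
import Pool.Agent.H3.HK.Generic

set_option autoImplicit false

/-!
# Values of the degree
-/

namespace Pool.Agent.H3.HK

open Classical Relation

variable {V : Type} {T : V → V → Prop}

theorem deg_le {R : Type} [Ring R] {n : ℕ} (φ : HK T →ₙ* Matrix (Fin n) (Fin n) R)
    (hφ : Function.Injective φ) : deg R T ≤ n :=
  sInf_le ⟨n, rfl, φ, hφ⟩

theorem le_deg {R : Type} [Ring R] {n c : ℕ}
    (h : ∀ (d : ℕ) (φ : HK T →ₙ* Matrix (Fin d) (Fin d) R), Function.Injective φ → n ≤ d + c) :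
    (n : ℕ∞) ≤ deg R T + c := by
  rcases Set.eq_empty_or_nonempty {d : ℕ∞ | ∃ n : ℕ, d = n ∧
    ∃ φ : HK T →ₙ* Matrix (Fin n) (Fin n) R, Function.Injective φ} with he | hne
  · rw [deg, he, sInf_empty, top_add]
    exact le_top
  · obtain ⟨d, hd, φ, hφ⟩ := csInf_mem hne
    rw [deg, hd]
    exact_mod_cast h d φ hφ

/-- An integral representation gives a complex one. -/
noncomputable def toC {n : ℕ} (φ : HK T →ₙ* Matrix (Fin n) (Fin n) ℤ) :
    HK T →ₙ* Matrix (Fin n) (Fin n) ℂ :=
  (((Int.castRingHom ℂ).mapMatrix : Matrix (Fin n) (Fin n) ℤ →+* Matrix (Fin n) (Fin n) ℂ) :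
    Matrix (Fin n) (Fin n) ℤ →ₙ* Matrix (Fin n) (Fin n) ℂ).comp φ

theorem toC_injective {n : ℕ} {φ : HK T →ₙ* Matrix (Fin n) (Fin n) ℤ}
    (hφ : Function.Injective φ) : Function.Injective (toC φ) := by
  have hinj : Function.Injective (Matrix.map · (Int.castRingHom ℂ) :
      Matrix (Fin n) (Fin n) ℤ → Matrix (Fin n) (Fin n) ℂ) :=
    Matrix.map_injective (RingHom.injective_int (Int.castRingHom ℂ))
  exact fun x y hxy => hφ (hinj hxy)

/-- The lower bound over any field. -/
theorem lower_all [Fintype V] (hT : Oriented T) (h1 : Disj T) (h2 : NoPath T) {c : ℕ}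
    {r : Fin c → V} (hr : Transv T r) {K : Type} [Field K] {d : ℕ}
    (φ : HK T →ₙ* Matrix (Fin d) (Fin d) K) (hφ : Function.Injective φ) :
    Fintype.card V + min c 2 ≤ d + c := by
  rcases Nat.lt_or_ge c 2 with hc | hc
  · have h3 : ∀ x y, TransGen T x x → TransGen T y y → ReflTransGen T x y := by
      intro x y hx hy
      obtain ⟨i, hi⟩ := hr.all x hx
      obtain ⟨j, hj⟩ := hr.all y hy
      have hij : i = j := Fin.ext (by have := i.2; have := j.2; omega)
      subst hij
      exact hi.trans (h2 y (r i) hy (hr.cyc i) hj)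
    have h4 := lower hT h1 h3 φ hφ
    omega
  · have h4 := lower_two hT h1 h2 hr (i := ⟨0, by omega⟩) (j := ⟨1, by omega⟩) (by
      intro h
      have := congrArg Fin.val h
      simp at this) φ hφ
    omega

/-- The lower bound for disjoint directed cycles which may be joined by paths. -/
theorem lower_disj [Fintype V] (hT : Oriented T) (h1 : Disj T) {c : ℕ} {r : Fin c → V}
    (hinj : ∀ i j, ReflTransGen T (r i) (r j) → ReflTransGen T (r j) (r i) → i = j)
    (hall : ∀ x, TransGen T x x → ∃ j, ReflTransGen T x (r j) ∧ ReflTransGen T (r j) x)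
    {K : Type} [Field K] {d : ℕ} (φ : HK T →ₙ* Matrix (Fin d) (Fin d) K)
    (hφ : Function.Injective φ) : Fintype.card V + min c 1 ≤ d + c := by
  have hri : Function.Injective r := fun i j h => hinj i j (by rw [h]) (by rw [h])
  have hac : ∀ x, ¬ TransGen (fun a b => T a b ∧ a ∉ Set.range r ∧ b ∉ Set.range r) x x := by
    intro x hx
    obtain ⟨j, h3, h4⟩ := hall x (TransGen.mono (p := T) (fun _ _ h => h.1) _ _ hx)
    have h5 := cycle_pass h1 (fun _ _ h => h.1) h3 h4 hx
    obtain ⟨w, -, h6⟩ := TransGen.tail'_iff.1 h5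
    exact h6.2.2 ⟨j, rfl⟩
  obtain ⟨l, hn, hm, hp⟩ := exists_sort _ hac (Finset.univ.filter fun x => x ∉ Set.range r)
  have hm' : ∀ x, x ∈ l ↔ x ∉ Set.range r := fun x => by rw [hm]; simp
  have hp' : l.Pairwise (fun a b => ¬ T b a) := by
    refine hp.imp_of_mem ?_
    intro a b ha hb hab hT'
    exact hab ⟨hT', (hm' b).1 hb, (hm' a).1 ha⟩
  have hlen : l.length + c = Fintype.card V := by
    have h5 : l.toFinset = Finset.univ \ Finset.univ.image r := by
      ext x
      rw [List.mem_toFinset, hm']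
      simp
    rw [← List.toFinset_card_of_nodup hn, h5, Finset.card_sdiff_of_subset (Finset.subset_univ _),
      Finset.card_image_of_injective _ hri, Finset.card_univ, Finset.card_univ,
      Fintype.card_fin]
    have : c ≤ Fintype.card V := by
      have := Fintype.card_le_of_injective r hri
      rwa [Fintype.card_fin] at this
    omega
  rcases Nat.eq_zero_or_pos c with hc | hc
  · have := lower_list hT hn hp' φ hφ
    omega
  · have := lower_list' hT hn hp' (r := r ⟨0, hc⟩) (by rw [hm']; simp) φ hφ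
    omega

end Pool.Agent.H3.HK
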