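import Pool.Agent.H3.HK.LowerTwo

set_option autoImplicit false

/-!
# First return weights
-/

namespace Pool.Agent.H3.HK

open Classical Relation

variable {V : Type} {T : V → V → Prop}

theorem wf_of_acyclic [Finite V] {T' : V → V → Prop} (h : ∀ x, ¬ TransGen T' x x) :
    WellFounded T' := by
  have h1 : WellFounded (TransGen T') := by
    have : IsTrans V (TransGen T') := ⟨fun a b c h1 h2 => h1.trans h2⟩
    have : Std.Irrefl (TransGen T') := ⟨fun a h1 => h a h1⟩
    exact Finite.wellFounded_of_trans_of_irrefl _
  exact Subrelation.wf (fun h => TransGen.single h) h1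

theorem wf_of_acyclic' [Finite V] {T' : V → V → Prop} (h : ∀ x, ¬ TransGen T' x x) :
    WellFounded fun a b => T' b a := by
  have h1 : WellFounded fun a b => TransGen T' b a := by
    have : IsTrans V fun a b => TransGen T' b a := ⟨fun a b c h1 h2 => h2.trans h1⟩
    have : Std.Irrefl fun a b => TransGen T' b a := ⟨fun a h1 => h a h1⟩
    exact Finite.wellFounded_of_trans_of_irrefl _
  exact Subrelation.wf (fun h => TransGen.single h) h1

variable [Fintype V] {R : Type} [CommRing R]

/-- The total weights of the walks from `r j` which return to the representatives only at the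
end. -/
theorem exists_g (h1 : Disj T) (h2 : NoPath T) {c : ℕ} {r : Fin c → V} (hr : Transv T r)
    (A : V → V → R) (hA : ∀ k l, ¬ T k l → A k l = 0)
    (hA1 : ∀ k l, T k l → ReflTransGen T l k → A k l = 1) (j : Fin c) :
    ∃ g : V → R, (∀ i, g (r i) = 0) ∧
      ∀ w, A (r j) w + ∑ s, g s * A s w = g w + if w = r j then 1 else 0 := by
  set T' : V → V → Prop := fun a b => T a b ∧ a ∉ Set.range r ∧ b ∉ Set.range r with hT'
  have hwf : WellFounded T' := wf_of_acyclic (hr.acyclic h1 h2)
  set g : V → R := hwf.fix (C := fun _ => R) fun w rec =>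
    if w ∈ Set.range r then 0 else A (r j) w + ∑ s, if h : T' s w then rec s h * A s w else 0
    with hg
  have hgeq : ∀ w, g w = if w ∈ Set.range r then 0 else
      A (r j) w + ∑ s, if T' s w then g s * A s w else 0 := by
    intro w
    rw [hg, hwf.fix_eq]
    split_ifs
    · rfl
    · congr 1
  have hg0 : ∀ i, g (r i) = 0 := by
    intro i
    rw [hgeq, if_pos ⟨i, rfl⟩]
  -- the sum over all vertices
  have hsum : ∀ w, w ∉ Set.range r → A (r j) w + ∑ s, g s * A s w = g w := by
    intro w hw
    rw [hgeq w, if_neg hw]
    congr 1
    refine Finset.sum_congr rfl fun s _ => ?_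
    by_cases hs : s ∈ Set.range r
    · obtain ⟨i, rfl⟩ := hs
      rw [hg0, zero_mul, if_neg fun h => h.2.1 ⟨i, rfl⟩]
    · by_cases hsw : T s w
      · rw [if_pos ⟨hsw, hs, hw⟩]
      · rw [hA s w hsw, mul_zero, if_neg fun h => hsw h.1]
  -- the support
  have hsupp : ∀ w, g w ≠ 0 → ReflTransGen T (r j) w := by
    intro w
    induction w using hwf.induction with
    | _ w ih =>
      intro hw
      rw [hgeq w] at hw
      split_ifs at hw with h3
      · exact absurd rfl hw
      · by_cases h4 : A (r j) w = 0
        · rw [h4, zero_add] at hw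
          obtain ⟨s, -, hs⟩ := Finset.exists_ne_zero_of_sum_ne_zero hw
          split_ifs at hs with h5
          · have h6 : g s ≠ 0 := fun e => hs (by rw [e, zero_mul])
            exact (ih s h5 h6).tail h5.1
          · exact absurd rfl hs
        · refine ReflTransGen.single ?_
          by_contra hcon
          exact h4 (hA _ _ hcon)
  refine ⟨g, hg0, ?_⟩
  intro w
  by_cases hw : w ∈ Set.range r
  · obtain ⟨i, rfl⟩ := hw
    by_cases hij : i = j
    · subst hij
      rw [hg0, zero_add, if_pos rfl]
      -- the indicator of the cycle
      set h : V → R := fun v => if ReflTransGen T v (r i) ∧ ReflTransGen T (r i) v then 1 else 0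
        with hh
      have hri : h (r i) = 1 := by rw [hh]; simp only; rw [if_pos ⟨.refl, .refl⟩]
      have hrk : ∀ k, k ≠ i → h (r k) = 0 := by
        intro k hk
        rw [hh]
        simp only
        rw [if_neg fun e => hk (hr.inj k i e.1)]
      have harm : ∀ v, ReflTransGen T (r i) v → ∑ x, A v x * h x = h v := by
        intro v hv
        by_cases hvr : ReflTransGen T v (r i)
        · have hvv : TransGen T v v :=
            (TransGen.trans_right hvr (hr.cyc i)).trans_left hv
          obtain ⟨x0, hx0, hx1⟩ := TransGen.head'_iff.1 hvv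
          rw [Finset.sum_eq_single x0]
          · rw [hA1 v x0 hx0 hx1, one_mul, hh]
            simp only
            rw [if_pos ⟨hx1.trans hvr, hv.tail hx0⟩, if_pos ⟨hvr, hv⟩]
          · intro x _ hx
            by_cases hvx : T v x
            · rw [hh]
              simp only
              rw [if_neg, mul_zero]
              rintro ⟨g1, -⟩
              exact hx (h1 v x x0 hvx hx0 (g1.trans hv) hx1)
            · rw [hA v x hvx, zero_mul]
          · intro hcon
            exact absurd (Finset.mem_univ _) hcon
        · have hv0 : h v = 0 := by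
            rw [hh]
            simp only
            rw [if_neg fun e => hvr e.1]
          rw [hv0]
          refine Finset.sum_eq_zero fun x _ => ?_
          by_cases hvx : T v x
          · rw [hh]
            simp only
            rw [if_neg fun e => hvr (ReflTransGen.head hvx e.1), mul_zero]
          · rw [hA v x hvx, zero_mul]
      -- pairing
      have e1 : ∑ x, (A (r i) x + ∑ s, g s * A s x) * h x = 1 + ∑ s, g s * h s := by
        have e2 : ∀ x, (A (r i) x + ∑ s, g s * A s x) * h x =
            A (r i) x * h x + ∑ s, g s * (A s x * h x) := by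
          intro x
          rw [add_mul, Finset.sum_mul]
          congr 1
          exact Finset.sum_congr rfl fun s _ => by ring
        simp only [e2]
        rw [Finset.sum_add_distrib, harm _ .refl, hri, Finset.sum_comm]
        congr 1
        refine Finset.sum_congr rfl fun s _ => ?_
        rw [← Finset.mul_sum]
        by_cases hs : g s = 0
        · rw [hs, zero_mul, zero_mul]
        · rw [harm s (hsupp s hs)]
      have e3 : ∑ x, (A (r i) x + ∑ s, g s * A s x) * h x =
          (A (r i) (r i) + ∑ s, g s * A s (r i)) + ∑ s, g s * h s := by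
        rw [← Finset.add_sum_erase _ _ (Finset.mem_univ (r i)), hri, mul_one]
        congr 1
        rw [← Finset.add_sum_erase (f := fun s => g s * h s) _ (Finset.mem_univ (r i)), hg0,
          zero_mul, zero_add]
        refine Finset.sum_congr rfl fun x hx => ?_
        by_cases hxr : x ∈ Set.range r
        · obtain ⟨k, rfl⟩ := hxr
          have hk : k ≠ i := by
            rintro rfl
            exact Finset.notMem_erase _ _ hx
          rw [hrk k hk, mul_zero, mul_zero]
        · rw [hsum x hxr]
      rw [e1] at e3
      exact (add_right_cancel e3).symm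
    · have hne : r i ≠ r j := fun e => hij (hr.injective e)
      have hpath : ∀ s, ReflTransGen T (r j) s → ¬ T s (r i) := by
        intro s hs hsi
        exact hij (hr.inj j i (hs.tail hsi)).symm
      rw [hg0, if_neg hne, add_zero, hA _ _ (hpath _ .refl), zero_add]
      refine Finset.sum_eq_zero fun s _ => ?_
      by_cases hs : g s = 0
      · rw [hs, zero_mul]
      · rw [hA _ _ (hpath s (hsupp s hs)), mul_zero]
  · have hne : w ≠ r j := fun e => hw ⟨j, e.symm⟩
    rw [if_neg hne, add_zero]
    exact hsum w hw

/-- Functions harmonic off the representatives and vanishing there are zero. -/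
theorem eq_zero_of_harmonic (h1 : Disj T) (h2 : NoPath T) {c : ℕ} {r : Fin c → V}
    (hr : Transv T r) (A : V → V → R) (hA : ∀ k l, ¬ T k l → A k l = 0) (u : V → R)
    (hu : ∀ i, u (r i) = 0) (hs : ∀ s, s ∉ Set.range r → u s = ∑ w, A s w * u w) (v : V) :
    u v = 0 := by
  have hwf := wf_of_acyclic' (hr.acyclic h1 h2)
  induction v using hwf.induction with
  | _ v ih =>
    by_cases hv : v ∈ Set.range r
    · obtain ⟨i, rfl⟩ := hv
      exact hu i
    · rw [hs v hv]
      refine Finset.sum_eq_zero fun w _ => ?_
      by_cases hvw : T v w
      · by_cases hw : w ∈ Set.range r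
        · obtain ⟨i, rfl⟩ := hw
          rw [hu i, mul_zero]
        · rw [ih w ⟨hvw, hv, hw⟩, mul_zero]
      · rw [hA _ _ hvw, zero_mul]

end Pool.Agent.H3.HK
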