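import Pool.Agent.H3.HK.Words

set_option autoImplicit false

/-!
# Lower bound for the degree of a faithful representation
-/

namespace Pool.Agent.H3.HK

open Classical Relation

variable {V : Type} {T : V → V → Prop}

/-- `0` if the letter `i` occurs, `1` otherwise. -/
noncomputable def chi (T : V → V → Prop) (i : V) : HK T →* ℕ :=
  PresentedMonoid.lift (fun j => if j = i then 0 else 1) (by
    intro x y h
    cases h with
    | idem j => by_cases h : j = i <;> simp [h]
    | comm j k _ _ _ => by_cases h : j = i <;> by_cases h' : k = i <;> simp [h, h']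
    | braid j k _ _ _ => by_cases h : j = i <;> by_cases h' : k = i <;> simp [h, h']
    | arrowL j k _ _ _ => by_cases h : j = i <;> by_cases h' : k = i <;> simp [h, h']
    | arrowR j k _ _ _ => by_cases h : j = i <;> by_cases h' : k = i <;> simp [h, h'])

theorem chi_gen (i j : V) : chi T i (gen T j) = if j = i then 0 else 1 :=
  PresentedMonoid.lift_of _ _

theorem chi_mem {i : V} {w : List V} (h : i ∈ w) : chi T i (wd T w) = 0 := by
  induction w with
  | nil => simp at h
  | cons j w ih =>
    rw [wd_cons, map_mul, chi_gen]
    by_cases hj : j = i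
    · simp [hj]
    · rw [ih ((List.mem_cons.1 h).resolve_left fun e => hj e.symm), mul_zero]

theorem chi_not_mem {i : V} {w : List V} (h : i ∉ w) : chi T i (wd T w) = 1 := by
  induction w with
  | nil => simp
  | cons j w ih =>
    rw [List.mem_cons, not_or] at h
    rw [wd_cons, map_mul, chi_gen, if_neg fun e => h.1 e.symm, ih h.2]

/-- A product of distinct letters such that no letter has an arrow to an earlier one absorbs all
its letters. -/
theorem absorb (hT : Oriented T) : ∀ l : List V, l.Nodup →
    l.Pairwise (fun a b => ¬ T b a) → ∀ x ∈ l, gen T x * wd T l = wd T l ∧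
      wd T l * gen T x = wd T l := by
  intro l
  induction l using List.reverseRecOn with
  | nil => intro _ _ x hx; simp at hx
  | append_singleton l v ih =>
    intro hn hp x hx
    rw [List.pairwise_append] at hp
    rw [List.nodup_append] at hn
    have hv : ∀ a ∈ l, ¬ T v a := fun a ha => hp.2.2 a ha v (by simp)
    have ih' := ih hn.1 hp.1
    rw [wd_append, wd_cons, wd_nil, mul_one]
    rcases List.mem_append.1 hx with hx | hx
    · obtain ⟨h1, h2⟩ := ih' x hx
      have hne : x ≠ v := by
        intro e
        exact hn.2.2 x hx v (by simp) e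
      refine ⟨by rw [← mul_assoc, h1], ?_⟩
      by_cases hxv : T x v
      · have h3 := gen_L hne hxv (hv x hx)
        calc wd T l * gen T v * gen T x = wd T l * gen T x * gen T v * gen T x := by rw [h2]
          _ = wd T l * (gen T x * gen T v * gen T x) := by simp only [mul_assoc]
          _ = wd T l * (gen T x * gen T v) := by rw [h3]
          _ = wd T l * gen T x * gen T v := by rw [mul_assoc]
          _ = wd T l * gen T v := by rw [h2]
      · have h3 := gen_comm hne hxv (hv x hx)
        calc wd T l * gen T v * gen T x = wd T l * (gen T v * gen T x) := by rw [mul_assoc]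
          _ = wd T l * (gen T x * gen T v) := by rw [h3]
          _ = wd T l * gen T x * gen T v := by rw [mul_assoc]
          _ = wd T l * gen T v := by rw [h2]
    · rw [List.mem_singleton] at hx
      subst hx
      refine ⟨?_, ?_⟩
      · rw [← mul_assoc]
        exact wd_R2 hT x l hv
      · rw [mul_assoc, gen_idem]

theorem absorb_word {l : List V} {z : HK T} (h : ∀ x ∈ l, gen T x * z = z ∧ z * gen T x = z) :
    wd T l * z = z ∧ z * wd T l = z := by
  induction l with
  | nil => simp
  | cons a l ih =>
    obtain ⟨h1, h2⟩ := ih fun x hx => h x (List.mem_cons_of_mem _ hx)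
    obtain ⟨h3, h4⟩ := h a List.mem_cons_self
    rw [wd_cons]
    exact ⟨by rw [mul_assoc, h1, h3], by rw [← mul_assoc, h4, h2]⟩

theorem rank_lt {K : Type} [Field K] {d : ℕ} (P Q : Matrix (Fin d) (Fin d) K)
    (h1 : P * Q = Q) (h2 : Q * P = Q) (h3 : Q * Q = Q) (h : P ≠ Q) : Q.rank < P.rank := by
  have hle : Q.rank ≤ P.rank := by
    conv_lhs => rw [← h1]
    exact Matrix.rank_mul_le_left P Q
  refine lt_of_le_of_ne hle fun heq => h ?_
  have hsub : LinearMap.range Q.mulVecLin ≤ LinearMap.range P.mulVecLin := by
    rintro _ ⟨x, rfl⟩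
    refine ⟨Q.mulVec x, ?_⟩
    simp only [Matrix.mulVecLin_apply, Matrix.mulVec_mulVec]
    rw [h1]
  have hran : LinearMap.range Q.mulVecLin = LinearMap.range P.mulVecLin :=
    Submodule.eq_of_le_of_finrank_eq hsub heq
  apply Matrix.mulVec_injective
  funext x
  have hx : P.mulVec x ∈ LinearMap.range Q.mulVecLin := by
    rw [hran]
    exact ⟨x, rfl⟩
  obtain ⟨y, hy⟩ := hx
  rw [Matrix.mulVecLin_apply] at hy
  calc P.mulVec x = Q.mulVec y := hy.symm
    _ = Q.mulVec (Q.mulVec y) := by rw [Matrix.mulVec_mulVec, h3]
    _ = Q.mulVec (P.mulVec x) := by rw [hy]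
    _ = Q.mulVec x := by rw [Matrix.mulVec_mulVec, h2]

theorem rank_chain (hT : Oriented T) {l : List V} (hn : l.Nodup)
    (hp : l.Pairwise (fun a b => ¬ T b a)) {K : Type} [Field K] {d : ℕ}
    (φ : HK T →ₙ* Matrix (Fin d) (Fin d) K) (hφ : Function.Injective φ) :
    ∀ k, k ≤ l.length → (φ (wd T (l.take k))).rank + k ≤ d := by
  have habs : ∀ k, ∀ x ∈ l.take k, gen T x * wd T (l.take k) = wd T (l.take k) ∧
      wd T (l.take k) * gen T x = wd T (l.take k) := fun k =>
    absorb hT _ (hn.sublist (List.take_sublist k l)) (hp.sublist (List.take_sublist k l))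
  intro k
  induction k with
  | zero =>
    intro _
    have := (φ (wd T (l.take 0))).rank_le_width
    simpa using this
  | succ k ih =>
    intro hk
    have ih' := ih (by omega)
    have hsub : ∀ x ∈ l.take k, x ∈ l.take (k + 1) := fun x hx =>
      (List.take_sublist_take_left (Nat.le_succ k)).subset hx
    have hz := habs (k + 1)
    obtain ⟨e1, e2⟩ := absorb_word (l := l.take k) fun x hx => hz x (hsub x hx)
    obtain ⟨e3, -⟩ := absorb_word (l := l.take (k + 1)) hz
    have hlt := rank_lt (φ (wd T (l.take k))) (φ (wd T (l.take (k + 1))))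
      (by rw [← map_mul, e1]) (by rw [← map_mul, e2]) (by rw [← map_mul, e3]) (by
        intro h
        have h' := hφ h
        have hkl : k < l.length := by omega
        have hmem : l[k] ∈ l.take (k + 1) :=
          List.mem_iff_getElem.2 ⟨k, by rw [List.length_take]; omega, by rw [List.getElem_take]⟩
        have hnm : l[k] ∉ l.take k := by
          intro hm
          obtain ⟨i, hi, hik⟩ := List.getElem_of_mem hm
          rw [List.length_take] at hi
          rw [List.getElem_take] at hik
          have := (List.Nodup.getElem_inj_iff hn).1 hik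
          omega
        have := congrArg (chi T l[k]) h'
        rw [chi_not_mem hnm, chi_mem hmem] at this
        exact one_ne_zero this)
    omega

theorem lower_list (hT : Oriented T) {l : List V} (hn : l.Nodup)
    (hp : l.Pairwise (fun a b => ¬ T b a)) {K : Type} [Field K] {d : ℕ}
    (φ : HK T →ₙ* Matrix (Fin d) (Fin d) K) (hφ : Function.Injective φ) : l.length ≤ d := by
  have := rank_chain hT hn hp φ hφ l.length le_rfl
  omega

theorem lower_list' (hT : Oriented T) {l : List V} (hn : l.Nodup)
    (hp : l.Pairwise (fun a b => ¬ T b a)) {r : V} (hr : r ∉ l) {K : Type} [Field K] {d : ℕ}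
    (φ : HK T →ₙ* Matrix (Fin d) (Fin d) K) (hφ : Function.Injective φ) : l.length + 1 ≤ d := by
  have h1 := rank_chain hT hn hp φ hφ l.length le_rfl
  rw [List.take_length] at h1
  have h2 : (φ (wd T l)).rank ≠ 0 := by
    intro h
    have h0 : φ (wd T l) = 0 := by
      have hb := LinearMap.range_eq_bot.1 (Submodule.finrank_eq_zero.1 h)
      apply Matrix.mulVec_injective
      funext x
      have := LinearMap.congr_fun hb x
      rw [Matrix.mulVecLin_apply] at this
      rw [this]
      simp
    have h3 : φ (wd T l * gen T r) = φ (wd T l) := by rw [map_mul, h0, zero_mul]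
    have h4 := congrArg (chi T r) (hφ h3)
    rw [map_mul, chi_gen, if_pos rfl, mul_zero, chi_not_mem hr] at h4
    exact zero_ne_one h4
  omega

/-- Topological sorting. -/
theorem exists_sort [Finite V] (T' : V → V → Prop) (h : ∀ x, ¬ TransGen T' x x)
    (s : Finset V) : ∃ l : List V, l.Nodup ∧ (∀ x, x ∈ l ↔ x ∈ s) ∧
      l.Pairwise (fun a b => ¬ T' b a) := by
  have hwf : WellFounded fun a b => TransGen T' b a := by
    have : IsTrans V fun a b => TransGen T' b a := ⟨fun a b c h1 h2 => h2.trans h1⟩
    have : Std.Irrefl fun a b => TransGen T' b a := ⟨fun a h1 => h a h1⟩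
    exact Finite.wellFounded_of_trans_of_irrefl _
  induction hs : s.card generalizing s with
  | zero =>
    rw [Finset.card_eq_zero] at hs
    subst hs
    exact ⟨[], by simp, by simp, by simp⟩
  | succ n ih =>
    have hne : (s : Set V).Nonempty := by
      rw [Finset.coe_nonempty, ← Finset.card_pos]
      omega
    obtain ⟨v, hv, hmin⟩ := hwf.has_min (s : Set V) hne
    obtain ⟨l, h1, h2, h3⟩ := ih (s.erase v) (by
      rw [Finset.card_erase_of_mem hv]
      omega)
    refine ⟨l ++ [v], ?_, ?_, ?_⟩
    · rw [List.nodup_append]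
      refine ⟨h1, by simp, ?_⟩
      intro a ha b hb hab
      rw [List.mem_singleton] at hb
      subst hb
      subst hab
      exact Finset.notMem_erase a s ((h2 a).1 ha)
    · intro x
      rw [List.mem_append, h2, Finset.mem_erase, List.mem_singleton]
      constructor
      · rintro (h4 | rfl)
        · exact h4.2
        · exact hv
      · intro hx
        by_cases hxv : x = v
        · exact Or.inr hxv
        · exact Or.inl ⟨hxv, hx⟩
    · rw [List.pairwise_append]
      refine ⟨h3, by simp, ?_⟩
      intro a ha b hb hT'
      rw [List.mem_singleton] at hb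
      subst hb
      have ha' : a ∈ (s : Set V) := Finset.mem_of_mem_erase ((h2 a).1 ha)
      exact hmin a ha' (TransGen.single hT')

/-- If `r` is removed from a digraph with at most one directed cycle, and `r` lies on the cycle,
no directed cycle is left. -/
theorem acyclic_off (h1 : ∀ v x y, T v x → T v y → ReflTransGen T x v → ReflTransGen T y v → x = y)
    (h2 : ∀ x y, TransGen T x x → TransGen T y y → ReflTransGen T x y) {r : V}
    (hr : TransGen T r r) (x : V) :
    ¬ TransGen (fun a b => T a b ∧ a ≠ r ∧ b ≠ r) x x := by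
  intro hx
  set T' : V → V → Prop := fun a b => T a b ∧ a ≠ r ∧ b ≠ r with hT'
  have hmono : ∀ {a b}, TransGen T' a b → TransGen T a b := fun h =>
    TransGen.mono (p := T) (fun _ _ h => h.1) _ _ h
  have hmono' : ∀ {a b}, ReflTransGen T' a b → ReflTransGen T a b := fun h =>
    ReflTransGen.mono (p := T) (fun _ _ h => h.1) _ _ h
  have hxr : ReflTransGen T x r := h2 x r (hmono hx) hr
  have hrx : ReflTransGen T r x := h2 r x hr (hmono hx)
  have key : ∀ v, ReflTransGen T x v → ReflTransGen T v r → TransGen T' x v ∧ TransGen T' v x := by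
    intro v hv
    induction hv with
    | refl => intro _; exact ⟨hx, hx⟩
    | tail hxw hwz ih =>
      rename_i w z
      intro hzr
      obtain ⟨i1, i2⟩ := ih (ReflTransGen.head hwz hzr)
      obtain ⟨w1, h3, h4⟩ := TransGen.head'_iff.1 i2
      have hw1 : ReflTransGen T w1 w := (hmono' h4).trans (hmono i1).to_reflTransGen
      have hz : ReflTransGen T z w := (hzr.trans hrx).trans (hmono i1).to_reflTransGen
      have hzw : z = w1 := h1 w z w1 hwz h3.1 hz hw1
      subst hzw
      exact ⟨i1.tail h3, TransGen.trans_right h4 hx⟩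
  obtain ⟨h3, -⟩ := key r hxr ReflTransGen.refl
  obtain ⟨w, -, h4⟩ := TransGen.tail'_iff.1 h3
  exact h4.2.2 rfl

/-- Lower bound for digraphs with at most one directed cycle. -/
theorem lower [Fintype V] (hT : Oriented T)
    (h1 : ∀ v x y, T v x → T v y → ReflTransGen T x v → ReflTransGen T y v → x = y)
    (h2 : ∀ x y, TransGen T x x → TransGen T y y → ReflTransGen T x y)
    {K : Type} [Field K] {d : ℕ}
    (φ : HK T →ₙ* Matrix (Fin d) (Fin d) K) (hφ : Function.Injective φ) :
    Fintype.card V ≤ d := by
  by_cases hr : ∃ r, TransGen T r r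
  · obtain ⟨r, hr⟩ := hr
    obtain ⟨l, hn, hm, hp⟩ := exists_sort (fun a b => T a b ∧ a ≠ r ∧ b ≠ r)
      (acyclic_off h1 h2 hr) (Finset.univ.erase r)
    have hrl : r ∉ l := by rw [hm]; simp
    have hp' : l.Pairwise (fun a b => ¬ T b a) := by
      refine hp.imp_of_mem ?_
      intro a b ha hb hab hT'
      rw [hm, Finset.mem_erase] at ha hb
      exact hab ⟨hT', hb.1, ha.1⟩
    have h3 := lower_list' hT hn hp' hrl φ hφ
    have h4 : l.length = Fintype.card V - 1 := by
      have h5 : l.toFinset = Finset.univ.erase r := by
        ext x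
        rw [List.mem_toFinset, hm]
      rw [← List.toFinset_card_of_nodup hn, h5, Finset.card_erase_of_mem (Finset.mem_univ r),
        Finset.card_univ]
    omega
  · push Not at hr
    obtain ⟨l, hn, hm, hp⟩ := exists_sort T hr Finset.univ
    have h3 := lower_list hT hn hp φ hφ
    have h4 : l.length = Fintype.card V := by
      have h5 : l.toFinset = Finset.univ := by
        ext x
        rw [List.mem_toFinset, hm]
      rw [← List.toFinset_card_of_nodup hn, h5, Finset.card_univ]
    omega

end Pool.Agent.H3.HK
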