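import Pool.Agent.H3.HK.Final

set_option autoImplicit false

/-!
# Lower bound `m - c + min c 2` when the disjoint cycles may be joined by paths
-/

namespace Pool.Agent.H3.HK

open Classical Relation

variable {V : Type} {T : V → V → Prop}

/-- a system of representatives of the directed cycles, which may be joined by paths -/
structure Reps (T : V → V → Prop) {c : ℕ} (r : Fin c → V) : Prop where
  cyc : ∀ j, TransGen T (r j) (r j)
  inj : ∀ i j, ReflTransGen T (r i) (r j) → ReflTransGen T (r j) (r i) → i = j
  all : ∀ x, TransGen T x x → ∃ j, ReflTransGen T x (r j) ∧ ReflTransGen T (r j) x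

theorem Reps.injective {c : ℕ} {r : Fin c → V} (hr : Reps T r) : Function.Injective r :=
  fun i j h => hr.inj i j (by rw [h]) (by rw [h])

theorem Reps.acyclic (h1 : Disj T) {c : ℕ} {r : Fin c → V} (hr : Reps T r)
    (x : V) : ¬ TransGen (fun a b => T a b ∧ a ∉ Set.range r ∧ b ∉ Set.range r) x x := by
  intro hx
  obtain ⟨j, h3, h4⟩ := hr.all x (TransGen.mono (p := T) (fun _ _ h => h.1) _ _ hx)
  have h5 := cycle_pass h1 (fun _ _ h => h.1) h3 h4 hx
  obtain ⟨w, -, h6⟩ := TransGen.tail'_iff.1 h5
  exact h6.2.2 ⟨j, rfl⟩

theorem Reps.exists_list [Fintype V] (h1 : Disj T) {c : ℕ} {r : Fin c → V}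
    (hr : Reps T r) : ∃ l : List V, l.Nodup ∧ (∀ x, x ∈ l ↔ x ∉ Set.range r) ∧
      l.Pairwise (fun a b => ¬ T b a) ∧ l.length + c = Fintype.card V := by
  obtain ⟨l, hn, hm, hp⟩ := exists_sort _ (hr.acyclic h1)
    (Finset.univ.filter fun x => x ∉ Set.range r)
  have hm' : ∀ x, x ∈ l ↔ x ∉ Set.range r := fun x => by rw [hm]; simp
  refine ⟨l, hn, hm', ?_, ?_⟩
  · refine hp.imp_of_mem ?_
    intro a b ha hb hab hT'
    exact hab ⟨hT', (hm' b).1 hb, (hm' a).1 ha⟩
  · have h5 : l.toFinset = Finset.univ \ Finset.univ.image r := by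
      ext x
      rw [List.mem_toFinset, hm']
      simp
    rw [← List.toFinset_card_of_nodup hn, h5, Finset.card_sdiff_of_subset (Finset.subset_univ _),
      Finset.card_image_of_injective _ hr.injective, Finset.card_univ, Finset.card_univ,
      Fintype.card_fin]
    have : c ≤ Fintype.card V := by
      have := Fintype.card_le_of_injective r hr.injective
      rwa [Fintype.card_fin] at this
    omega

/-- a vertex of a cycle can be replaced by its successor -/
theorem Reps.avoid (hT : Oriented T) {c : ℕ} {r : Fin c → V} (hr : Reps T r)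
    (v : V) : ∃ r' : Fin c → V, Reps T r' ∧ v ∉ Set.range r' := by
  by_cases hv : v ∈ Set.range r
  · obtain ⟨j, rfl⟩ := hv
    obtain ⟨s, hs1, hs2⟩ := TransGen.head'_iff.1 (hr.cyc j)
    have hs3 : ReflTransGen T (r j) s := ReflTransGen.single hs1
    have g1 : ∀ i, ReflTransGen T (r i) (Function.update r j s i) := by
      intro i
      by_cases hi : i = j
      · subst hi
        rw [Function.update_self]
        exact hs3
      · rw [Function.update_of_ne hi]
    have g2 : ∀ i, ReflTransGen T (Function.update r j s i) (r i) := by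
      intro i
      by_cases hi : i = j
      · subst hi
        rw [Function.update_self]
        exact hs2
      · rw [Function.update_of_ne hi]
    refine ⟨Function.update r j s, ⟨?_, ?_, ?_⟩, ?_⟩
    · intro i
      by_cases hi : i = j
      · subst hi
        rw [Function.update_self]
        exact TransGen.trans_right hs2 (TransGen.single hs1)
      · rw [Function.update_of_ne hi]
        exact hr.cyc i
    · intro i i' h h'
      exact hr.inj i i' (((g1 i).trans h).trans (g2 i')) (((g1 i').trans h').trans (g2 i))
    · intro x hx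
      obtain ⟨i, hi, hi'⟩ := hr.all x hx
      exact ⟨i, hi.trans (g1 i), (g2 i).trans hi'⟩
    · rintro ⟨i, hi⟩
      by_cases hij : i = j
      · subst hij
        rw [Function.update_self] at hi
        exact hT.ne hs1 hi.symm
      · rw [Function.update_of_ne hij] at hi
        exact hij (hr.injective hi)
  · exact ⟨r, hr, hv⟩

variable {K : Type} [Field K] {d : ℕ}

theorem lower_two_joined [Fintype V] (hT : Oriented T) (h1 : Disj T) {c : ℕ}
    {r : Fin c → V} (hr : Reps T r) {i j : Fin c} (hij : ¬ ReflTransGen T (r i) (r j))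
    (φ : HK T →ₙ* Matrix (Fin d) (Fin d) K) (hφ : Function.Injective φ) :
    Fintype.card V + 2 ≤ d + c := by
  obtain ⟨L, hn, hm, hp, hc⟩ := hr.exists_list h1
  have hri : r i ∉ L := by rw [hm]; simp
  have hrj : r j ∉ L := by rw [hm]; simp
  have h3 := lower_list' hT hn hp hri φ hφ
  by_contra hcon
  have hd : d + c = Fintype.card V + 1 := by omega
  -- ranks along a sorted list
  have hfull : ∀ {r' : Fin c → V}, Reps T r' → ∀ L' : List V, L'.Nodup →
      (∀ x, x ∈ L' ↔ x ∉ Set.range r') → L'.Pairwise (fun a b => ¬ T b a) →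
      L'.length + c = Fintype.card V →
      (φ (wd T L')).rank ≠ 0 ∧ (φ (wd T L')).rank + L'.length ≤ (φ 1).rank ∧
      ∀ v ∈ L', (φ (wd T L')).rank + L'.length ≤ (φ (gen T v)).rank + 1 := by
    intro r' hr' L' hn' hm' hp' hc'
    have hall : L'.filter (fun x => x ∈ L'.toFinset) = L' := by
      rw [List.filter_eq_self]
      intro x hx
      simpa using hx
    refine ⟨?_, ?_, ?_⟩
    · intro h0
      have h0' := eq_zero_of_rank h0
      have hi' : r' i ∉ L' := by rw [hm']; simp
      have h3 : φ (wd T L' * gen T (r' i)) = φ (wd T L') := by rw [map_mul, h0', zero_mul]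
      have h4 := congrArg (chi T (r' i)) (hφ h3)
      rw [map_mul, chi_gen, if_pos rfl, mul_zero, chi_not_mem hi'] at h4
      exact zero_ne_one h4
    · have := rank_set hT hn' hp' φ hφ ∅ L'.toFinset (Finset.disjoint_empty_left _)
        (fun x hx => List.mem_toFinset.1 hx)
      rw [Finset.empty_union, hall, List.toFinset_card_of_nodup hn'] at this
      have h5 : L'.filter (fun x => x ∈ (∅ : Finset V)) = [] := by
        rw [List.filter_eq_nil_iff]
        simp
      rwa [h5, wd_nil] at this
    · intro v hv
      have hv' : v ∈ L'.toFinset := List.mem_toFinset.2 hv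
      have := rank_set hT hn' hp' φ hφ {v} (L'.toFinset.erase v) (by
          rw [Finset.disjoint_singleton_left]
          exact Finset.notMem_erase v _)
        (fun x hx => List.mem_toFinset.1 (Finset.mem_of_mem_erase hx))
      rw [← Finset.insert_eq, Finset.insert_erase hv', hall, Finset.card_erase_of_mem hv',
        List.toFinset_card_of_nodup hn'] at this
      have h5 := filter_single hn' hv
      rw [h5, wd_cons, wd_nil, mul_one] at this
      have h8 : 0 < L'.length := List.length_pos_of_mem hv
      omega
  obtain ⟨f1, f2, -⟩ := hfull hr L hn hm hp hc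
  have hone : φ 1 * φ 1 = φ 1 := by rw [← map_mul, mul_one]
  have hr1 := rank_sub_add hone
  have hrk1 : (φ 1).rank ≤ d := by omega
  have hφ1 : φ 1 = 1 := by
    have : (1 - φ 1).rank = 0 := by omega
    have := eq_zero_of_rank this
    rw [sub_eq_zero] at this
    exact this.symm
  have hrkL : (φ (wd T L)).rank ≤ 1 := by omega
  have hrk : ∀ v, (1 - φ (gen T v)).rank ≤ 1 := by
    intro v
    obtain ⟨r', hr', hv⟩ := hr.avoid hT v
    obtain ⟨L', hn', hm', hp', hc'⟩ := hr'.exists_list h1
    obtain ⟨f3, -, f4⟩ := hfull hr' L' hn' hm' hp' hc'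
    have f5 := f4 v ((hm' v).2 hv)
    have f6 := rank_sub_add (P := φ (gen T v)) (by rw [← map_mul, gen_idem])
    omega
  have hN := fun {v w : V} => mul_N_eq_zero hT φ hφ hrk (v := v) (w := w)
  -- no path from the cycle of `r i` to that of `r j`
  have hkey : ∀ (l : List V) (v : V), ¬ ReflTransGen T v (r j) →
      (1 - φ (gen T v)) * φ (wd T l) * (1 - φ (gen T (r j))) = 0 := by
    intro l
    induction l with
    | nil =>
      intro v hv
      rw [wd_nil, hφ1, mul_one]
      exact hN (fun e => hv (by rw [e])) (fun h => hv (ReflTransGen.single h))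
    | cons k l ih =>
      intro v hv
      rw [wd_cons, map_mul]
      have e1 : (1 - φ (gen T v)) * (φ (gen T k) * φ (wd T l)) * (1 - φ (gen T (r j))) =
          (1 - φ (gen T v)) * φ (wd T l) * (1 - φ (gen T (r j))) -
          (1 - φ (gen T v)) * (1 - φ (gen T k)) * φ (wd T l) * (1 - φ (gen T (r j))) := by
        noncomm_ring
      rw [e1, ih v hv, zero_sub, neg_eq_zero]
      by_cases hk : ReflTransGen T k (r j)
      · have hvk : v ≠ k := by
          rintro rfl
          exact hv hk
        rw [hN hvk fun h => hv (ReflTransGen.head h hk), zero_mul, zero_mul]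
      · have := ih k hk
        rw [mul_assoc, mul_assoc, ← mul_assoc (1 - φ (gen T k)), this, mul_zero]
  have hz := hkey L (r i) hij
  have hcase : ∀ v, v ∉ L → φ (gen T v) * φ (wd T L) ≠ φ (wd T L) ∧
      φ (wd T L) * φ (gen T v) ≠ φ (wd T L) := by
    intro v hv
    constructor
    · intro h
      rw [← map_mul] at h
      have h4 := congrArg (chi T v) (hφ h)
      rw [map_mul, chi_gen, if_pos rfl, zero_mul, chi_not_mem hv] at h4
      exact zero_ne_one h4
    · intro h
      rw [← map_mul] at h
      have h4 := congrArg (chi T v) (hφ h)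
      rw [map_mul, chi_gen, if_pos rfl, mul_zero, chi_not_mem hv] at h4
      exact zero_ne_one h4
  by_cases hB : φ (wd T L) * (1 - φ (gen T (r j))) = 0
  · rw [mul_sub, mul_one, sub_eq_zero] at hB
    exact (hcase (r j) hrj).2 hB.symm
  · have := rank_one_mul hrkL hz hB
    rw [sub_mul, one_mul, sub_eq_zero] at this
    exact (hcase (r i) hri).1 this.symm

/-- The lower bound for disjoint directed cycles which may be joined by paths. -/
theorem lower_joined [Fintype V] (hT : Oriented T) (h1 : Disj T) {c : ℕ} {r : Fin c → V}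
    (hr : Reps T r) (φ : HK T →ₙ* Matrix (Fin d) (Fin d) K)
    (hφ : Function.Injective φ) : Fintype.card V + min c 2 ≤ d + c := by
  rcases Nat.lt_or_ge c 2 with hc | hc
  · have := lower_disj hT h1 hr.inj hr.all φ hφ
    omega
  · have hne : (⟨0, by omega⟩ : Fin c) ≠ ⟨1, by omega⟩ := by
      intro h
      have := congrArg Fin.val h
      simp at this
    by_cases h01 : ReflTransGen T (r ⟨0, by omega⟩) (r ⟨1, by omega⟩)
    · have := lower_two_joined hT h1 hr (i := ⟨1, by omega⟩) (j := ⟨0, by omega⟩)
        (fun h => hne (hr.inj _ _ h01 h)) φ hφ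
      omega
    · have := lower_two_joined hT h1 hr h01 φ hφ
      omega

end Pool.Agent.H3.HK
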