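import Pool.Agent.H3.HK.Rep

set_option autoImplicit false

/-!
# Walks in digraphs whose directed cycles are disjoint
-/

namespace Pool.Agent.H3.HK

open Classical Relation

variable {V : Type} {T : V → V → Prop}

/-- Every vertex has at most one outgoing arrow which lies on a directed cycle. -/
def Disj (T : V → V → Prop) : Prop :=
  ∀ v x y, T v x → T v y → ReflTransGen T x v → ReflTransGen T y v → x = y

/-- There is no path from one directed cycle to a different one. -/
def NoPath (T : V → V → Prop) : Prop :=
  ∀ x y, TransGen T x x → TransGen T y y → ReflTransGen T x y → ReflTransGen T y x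

theorem chain_reach {k x : V} : ∀ {q : List V}, (k :: q).IsChain T → x ∈ k :: q →
    ReflTransGen T k x := by
  intro q
  induction q generalizing k with
  | nil =>
    intro _ hx
    rw [List.mem_singleton] at hx
    rw [hx]
  | cons j q ih =>
    intro h hx
    rw [List.isChain_cons_cons] at h
    rcases List.mem_cons.1 hx with rfl | hx
    · exact ReflTransGen.refl
    · exact ReflTransGen.head h.1 (ih h.2 hx)

theorem reach_last {k x l : V} : ∀ {q : List V}, (k :: q).IsChain T → x ∈ k :: q →
    (k :: q).getLast? = some l → ReflTransGen T x l := by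
  intro q
  induction q generalizing k x with
  | nil =>
    intro _ hx hl
    rw [List.mem_singleton] at hx
    simp only [List.getLast?_singleton, Option.some.injEq] at hl
    rw [hx, hl]
  | cons j q ih =>
    intro h hx hl
    rw [List.isChain_cons_cons] at h
    rw [List.getLast?_cons_cons] at hl
    rcases List.mem_cons.1 hx with rfl | hx
    · exact ReflTransGen.head h.1 (ih h.2 List.mem_cons_self hl)
    · exact ih h.2 hx hl

theorem getLast?_cons_ne (k : V) (q : List V) (hq : q ≠ []) :
    (k :: q).getLast? = q.getLast? := by
  cases q with
  | nil => exact absurd rfl hq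
  | cons j q => rw [List.getLast?_cons_cons]

/-- A closed walk passes through all vertices of its strongly connected component. -/
theorem closed_arc (h1 : Disj T) {k x : V} {q : List V} (hc : (k :: x :: q).IsChain T)
    (hl : (k :: x :: q).getLast? = some k) {z : V} (hkz : ReflTransGen T k z)
    (hzk : ReflTransGen T z k) : ∃ a y b, k :: x :: q = a ++ z :: y :: b := by
  induction hkz with
  | refl => exact ⟨[], x, q, rfl⟩
  | tail hkw hwz ih =>
    rename_i w z
    obtain ⟨a, y, b, hab⟩ := ih (ReflTransGen.head hwz hzk)
    have hyw : T w y := by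
      rw [hab] at hc
      have := (List.isChain_append.1 hc).2.1
      exact (List.isChain_cons_cons.1 this).1
    have hy : y ∈ k :: x :: q := by rw [hab]; simp
    have hyk : ReflTransGen T y k := reach_last hc hy hl
    have hzy : z = y := h1 w z y hwz hyw (hzk.trans hkw) (hyk.trans hkw)
    subst hzy
    cases b with
    | nil =>
      have h2 : (a ++ w :: [z]).getLast? = some z := by
        simp
      rw [← hab, hl] at h2
      simp only [Option.some.injEq] at h2
      subst h2
      exact ⟨[], x, q, rfl⟩
    | cons y' b' => exact ⟨a ++ [w], y', b', by rw [hab]; simp⟩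

variable [LinearOrder V]

/-- the least vertex of a strongly connected component -/
def Sp (T : V → V → Prop) (x : V) : Prop :=
  ∀ w, ReflTransGen T x w → ReflTransGen T w x → x ≤ w

/-- indicator of a special arrow -/
noncomputable def num (T : V → V → Prop) (x y : V) : ℕ :=
  if ReflTransGen T y x ∧ Sp T x then 1 else 0

/-- number of special arrows of a walk -/
noncomputable def cnt (T : V → V → Prop) : List V → ℕ
  | [] => 0
  | [_] => 0
  | k :: j :: q => num T k j + cnt T (j :: q)

/-- the arrows of a walk which do not lie on directed cycles -/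
noncomputable def NA (T : V → V → Prop) : List V → Finset (V × V)
  | [] => ∅
  | [_] => ∅
  | k :: j :: q => if ReflTransGen T j k then NA T (j :: q) else insert (k, j) (NA T (j :: q))

theorem cnt_append_left (u : List V) : ∀ v : List V, cnt T v ≤ cnt T (u ++ v) := by
  induction u with
  | nil => intro v; exact le_rfl
  | cons a u ih =>
    intro v
    refine (ih v).trans ?_
    rw [List.cons_append]
    cases h : u ++ v with
    | nil => simp [cnt]
    | cons b w => rw [cnt]; exact Nat.le_add_left _ _

theorem cnt_append_right : ∀ (u v : List V), cnt T u ≤ cnt T (u ++ v) := by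
  intro u
  induction u with
  | nil => intro v; simp [cnt]
  | cons a u ih =>
    intro v
    cases u with
    | nil => simp [cnt]
    | cons b u =>
      have := ih v
      rw [List.cons_append, List.cons_append] at *
      rw [cnt, cnt]
      exact Nat.add_le_add_left this _

theorem cnt_arc (a b : List V) (x y : V) : num T x y ≤ cnt T (a ++ x :: y :: b) :=
  (Nat.le_add_right _ _).trans (cnt_append_left a (x :: y :: b))

theorem exists_of_cnt : ∀ {p : List V}, cnt T p ≠ 0 →
    ∃ a z z' b, p = a ++ z :: z' :: b ∧ ReflTransGen T z' z := by
  intro p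
  induction p with
  | nil => intro h; exact absurd rfl h
  | cons k p ih =>
    intro h
    cases p with
    | nil => exact absurd rfl h
    | cons j q =>
      by_cases h1 : num T k j = 0
      · rw [cnt, h1, zero_add] at h
        obtain ⟨a, z, z', b, h2, h3⟩ := ih h
        exact ⟨k :: a, z, z', b, by rw [h2]; rfl, h3⟩
      · refine ⟨[], k, j, q, rfl, ?_⟩
        by_contra h3
        exact h1 (by rw [num, if_neg fun h4 => h3 h4.1])

theorem mem_NA : ∀ {p : List V} {x y : V}, (x, y) ∈ NA T p →
    ¬ ReflTransGen T y x ∧ ∃ a b, p = a ++ x :: y :: b := by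
  intro p
  induction p with
  | nil => intro x y h; simp [NA] at h
  | cons k p ih =>
    intro x y h
    cases p with
    | nil => simp [NA] at h
    | cons j q =>
      rw [NA] at h
      split_ifs at h with h1
      · obtain ⟨h2, a, b, h3⟩ := ih h
        exact ⟨h2, k :: a, b, by rw [h3]; rfl⟩
      · rcases Finset.mem_insert.1 h with h | h
        · simp only [Prod.mk.injEq] at h
          obtain ⟨rfl, rfl⟩ := h
          exact ⟨h1, [], q, rfl⟩
        · obtain ⟨h2, a, b, h3⟩ := ih h
          exact ⟨h2, k :: a, b, by rw [h3]; rfl⟩

theorem NA_not_mem {k j : V} {q : List V} (hc : (k :: j :: q).IsChain T)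
    (h : ¬ ReflTransGen T j k) : (k, j) ∉ NA T (j :: q) := by
  intro hm
  obtain ⟨-, a, b, h1⟩ := mem_NA hm
  refine h (chain_reach (List.isChain_cons_cons.1 hc).2 ?_)
  rw [h1]
  simp

/-- A closed walk contains a special arrow. -/
theorem cnt_closed [Finite V] (h1 : Disj T) {k x : V} {q : List V}
    (hc : (k :: x :: q).IsChain T) (hl : (k :: x :: q).getLast? = some k) :
    cnt T (k :: x :: q) ≠ 0 := by
  obtain ⟨r, hr, hmin⟩ := (Set.toFinite {w : V | ReflTransGen T k w ∧ ReflTransGen T w k}).exists_minimalFor
    (fun w => w) _ ⟨k, ReflTransGen.refl, ReflTransGen.refl⟩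
  have hSp : Sp T r := by
    intro w hrw hwr
    by_contra hcon
    exact hcon (hmin (j := w) ⟨hr.1.trans hrw, hwr.trans hr.2⟩ (le_of_lt (not_le.1 hcon)))
  obtain ⟨a, y, b, hab⟩ := closed_arc h1 hc hl hr.1 hr.2
  have hy : y ∈ k :: x :: q := by rw [hab]; simp
  have hyr : ReflTransGen T y r := (reach_last hc hy hl).trans hr.1
  have hn : num T r y = 1 := by rw [num, if_pos ⟨hyr, hSp⟩]
  have := cnt_arc (T := T) a b r y
  rw [← hab, hn] at this
  omega

/-- the key comparison -/
theorem cnt_compare [Finite V] (h1 : Disj T) (h2 : NoPath T) {k x y : V} {q q' : List V}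
    (hc : (k :: x :: q).IsChain T) (hc' : (k :: y :: q').IsChain T) (hxy : x ≠ y)
    (hy : ¬ ReflTransGen T y k) (hNA : NA T (k :: x :: q) = NA T (k :: y :: q')) :
    cnt T (k :: x :: q) ≠ 0 ∧ cnt T (k :: y :: q') = 0 := by
  have hm : (k, y) ∈ NA T (k :: x :: q) := by
    rw [hNA, NA, if_neg hy]
    exact Finset.mem_insert_self _ _
  obtain ⟨-, a, b, hab⟩ := mem_NA hm
  cases a with
  | nil =>
    rw [List.nil_append] at hab
    injection hab with _ hab
    injection hab with hab _
    exact absurd hab hxy
  | cons k' a =>
    rw [List.cons_append] at hab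
    injection hab with hk hab
    subst hk
    obtain ⟨x1, q1, hq1⟩ : ∃ x1 q1, a ++ [k] = x1 :: q1 := by
      cases a with
      | nil => exact ⟨k, [], rfl⟩
      | cons a0 a => exact ⟨a0, a ++ [k], rfl⟩
    have hsplit : k :: x :: q = (k :: x1 :: q1) ++ y :: b := by
      rw [hab, ← hq1]
      simp
    have hc1 : (k :: x1 :: q1).IsChain T := by
      rw [hsplit] at hc
      exact (List.isChain_append.1 hc).1
    have hl1 : (k :: x1 :: q1).getLast? = some k := by
      rw [← hq1, ← List.cons_append, List.getLast?_concat]
    have hcyc : TransGen T k k := by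
      have hk1 := (List.isChain_cons_cons.1 hc1).1
      have := reach_last hc1 (x := x1) (by simp) hl1
      exact TransGen.head' hk1 this
    constructor
    · have := cnt_closed h1 hc1 hl1
      have h3 := cnt_append_right (T := T) (k :: x1 :: q1) (y :: b)
      rw [← hsplit] at h3
      omega
    · by_contra hne
      rw [cnt] at hne
      have hn : num T k y = 0 := by rw [num, if_neg fun h => hy h.1]
      rw [hn, zero_add] at hne
      obtain ⟨a', z, z', b', h3, h4⟩ := exists_of_cnt hne
      have hcy := (List.isChain_cons_cons.1 hc')
      have hzz : T z z' := by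
        have := hcy.2
        rw [h3] at this
        exact (List.isChain_cons_cons.1 (List.isChain_append.1 this).2.1).1
      have hz : TransGen T z z := TransGen.head' hzz h4
      have hyz : ReflTransGen T y z := chain_reach hcy.2 (by rw [h3]; simp)
      exact hy (hyz.trans (h2 k z hcyc hz (ReflTransGen.head hcy.1 hyz)))

/-- Walks with the same ends are determined by their arrows which are on no cycle, and the
number of their special arrows. -/
theorem walk_inj [Finite V] (h1 : Disj T) (h2 : NoPath T) : ∀ (q q' : List V) (k : V),
    (k :: q).IsChain T → (k :: q').IsChain T → (k :: q).getLast? = (k :: q').getLast? →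
    cnt T (k :: q) = cnt T (k :: q') → NA T (k :: q) = NA T (k :: q') → q = q' := by
  intro q
  induction q with
  | nil =>
    intro q' k _ hc' hl hcnt _
    cases q' with
    | nil => rfl
    | cons y q' =>
      exfalso
      exact cnt_closed h1 hc' (by rw [← hl]; simp) (by rw [← hcnt]; simp [cnt])
  | cons x q ih =>
    intro q' k hc hc' hl hcnt hNA
    cases q' with
    | nil =>
      exfalso
      exact cnt_closed h1 hc (by rw [hl]; simp) (by rw [hcnt]; simp [cnt])
    | cons y q' =>
      by_cases hxy : x = y
      · subst hxy
        congr 1
        refine ih q' x (List.isChain_cons_cons.1 hc).2 (List.isChain_cons_cons.1 hc').2 ?_ ?_ ?_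
        · rwa [List.getLast?_cons_cons, List.getLast?_cons_cons] at hl
        · rw [cnt, cnt] at hcnt
          omega
        · rw [NA, NA] at hNA
          split_ifs at hNA with h3
          · exact hNA
          · have h4 := NA_not_mem hc h3
            have h5 := NA_not_mem hc' h3
            have := congrArg (fun s => s.erase (k, x)) hNA
            simp only [Finset.erase_insert h4, Finset.erase_insert h5] at this
            exact this
      · exfalso
        by_cases hy : ReflTransGen T y k
        · have hx : ¬ ReflTransGen T x k := by
            intro hx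
            exact hxy (h1 k x y (List.isChain_cons_cons.1 hc).1 (List.isChain_cons_cons.1 hc').1
              hx hy)
          have h3 := cnt_compare h1 h2 hc' hc (fun h => hxy h.symm) hx hNA.symm
          omega
        · have h3 := cnt_compare h1 h2 hc hc' hxy hy hNA
          omega

end Pool.Agent.H3.HK
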