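import Pool.Agent.H3.HK.Lower
import Pool.Agent.H3.HK.Walks

set_option autoImplicit false

/-!
# Lower bound for the degree when there are at least two directed cycles
-/

namespace Pool.Agent.H3.HK

open Classical Relation

variable {V : Type} {T : V → V → Prop}

/-- A closed walk in a subgraph passes through every vertex of the component. -/
theorem cycle_pass (h1 : Disj T) {T' : V → V → Prop} (hsub : ∀ a b, T' a b → T a b) {x r : V}
    (hxr : ReflTransGen T x r) (hrx : ReflTransGen T r x) (hx : TransGen T' x x) :
    TransGen T' x r := by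
  have hmono : ∀ {a b}, TransGen T' a b → TransGen T a b := fun h =>
    TransGen.mono (p := T) hsub _ _ h
  have hmono' : ∀ {a b}, ReflTransGen T' a b → ReflTransGen T a b := fun h =>
    ReflTransGen.mono (p := T) hsub _ _ h
  have key : ∀ v, ReflTransGen T x v → ReflTransGen T v r → TransGen T' x v ∧ TransGen T' v x := by
    intro v hv
    induction hv with
    | refl => intro _; exact ⟨hx, hx⟩
    | tail hxw hwz ih =>
      rename_i w z
      intro hzr
      obtain ⟨i1, i2⟩ := ih (ReflTransGen.head hwz hzr)
      obtain ⟨w1, h3, h4⟩ := TransGen.head'_iff.1 i2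
      have hw1 : ReflTransGen T w1 w := (hmono' h4).trans (hmono i1).to_reflTransGen
      have hz : ReflTransGen T z w := (hzr.trans hrx).trans (hmono i1).to_reflTransGen
      have hzw : z = w1 := h1 w z w1 hwz (hsub _ _ h3) hz hw1
      subst hzw
      exact ⟨i1.tail h3, TransGen.trans_right h4 hx⟩
  exact (key r hxr ReflTransGen.refl).1

/-- a system of representatives of the directed cycles -/
structure Transv (T : V → V → Prop) {c : ℕ} (r : Fin c → V) : Prop where
  cyc : ∀ j, TransGen T (r j) (r j)
  inj : ∀ i j, ReflTransGen T (r i) (r j) → i = j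
  all : ∀ x, TransGen T x x → ∃ j, ReflTransGen T x (r j)

theorem Transv.injective {c : ℕ} {r : Fin c → V} (hr : Transv T r) : Function.Injective r :=
  fun i j h => hr.inj i j (by rw [h])

theorem Transv.acyclic (h1 : Disj T) (h2 : NoPath T) {c : ℕ} {r : Fin c → V} (hr : Transv T r)
    (x : V) : ¬ TransGen (fun a b => T a b ∧ a ∉ Set.range r ∧ b ∉ Set.range r) x x := by
  intro hx
  have hx' : TransGen T x x := TransGen.mono (p := T) (fun _ _ h => h.1) _ _ hx
  obtain ⟨j, hj⟩ := hr.all x hx'
  have h3 := cycle_pass h1 (fun _ _ h => h.1) hj (h2 x (r j) hx' (hr.cyc j) hj) hx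
  obtain ⟨w, -, h4⟩ := TransGen.tail'_iff.1 h3
  exact h4.2.2 ⟨j, rfl⟩

/-- the complement of a system of representatives can be sorted -/
theorem Transv.exists_list [Fintype V] (h1 : Disj T) (h2 : NoPath T) {c : ℕ} {r : Fin c → V}
    (hr : Transv T r) : ∃ l : List V, l.Nodup ∧ (∀ x, x ∈ l ↔ x ∉ Set.range r) ∧
      l.Pairwise (fun a b => ¬ T b a) ∧ l.length + c = Fintype.card V := by
  obtain ⟨l, hn, hm, hp⟩ := exists_sort _ (hr.acyclic h1 h2)
    (Finset.univ.filter fun x => x ∉ Set.range r)
  have hm' : ∀ x, x ∈ l ↔ x ∉ Set.range r := fun x => by rw [hm]; simp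
  refine ⟨l, hn, hm', ?_, ?_⟩
  · refine hp.imp_of_mem ?_
    intro a b ha hb hab hT'
    exact hab ⟨hT', (hm' b).1 hb, (hm' a).1 ha⟩
  · have h5 : l.toFinset = Finset.univ \ Finset.univ.image r := by
      ext x
      rw [List.mem_toFinset, hm']
      simp
    rw [← List.toFinset_card_of_nodup hn, h5, Finset.card_sdiff_of_subset (Finset.subset_univ _),
      Finset.card_image_of_injective _ hr.injective, Finset.card_univ, Finset.card_univ,
      Fintype.card_fin]
    have : c ≤ Fintype.card V := by
      have := Fintype.card_le_of_injective r hr.injective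
      rwa [Fintype.card_fin] at this
    omega

/-- a vertex of a cycle can be replaced by its successor -/
theorem Transv.avoid (hT : Oriented T) (h2 : NoPath T) {c : ℕ} {r : Fin c → V} (hr : Transv T r)
    (v : V) : ∃ r' : Fin c → V, Transv T r' ∧ v ∉ Set.range r' := by
  by_cases hv : v ∈ Set.range r
  · obtain ⟨j, rfl⟩ := hv
    obtain ⟨s, hs1, hs2⟩ := TransGen.head'_iff.1 (hr.cyc j)
    have hs3 : ReflTransGen T (r j) s := ReflTransGen.single hs1
    refine ⟨Function.update r j s, ⟨?_, ?_, ?_⟩, ?_⟩
    · intro i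
      by_cases hi : i = j
      · subst hi
        rw [Function.update_self]
        exact TransGen.trans_right hs2 (TransGen.single hs1)
      · rw [Function.update_of_ne hi]
        exact hr.cyc i
    · intro i i' h
      have g1 : ReflTransGen T (r i) (Function.update r j s i) := by
        by_cases hi : i = j
        · subst hi
          rw [Function.update_self]
          exact hs3
        · rw [Function.update_of_ne hi]
      have g2 : ReflTransGen T (Function.update r j s i') (r i') := by
        by_cases hi : i' = j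
        · subst hi
          rw [Function.update_self]
          exact hs2
        · rw [Function.update_of_ne hi]
      exact hr.inj i i' ((g1.trans h).trans g2)
    · intro x hx
      obtain ⟨i, hi⟩ := hr.all x hx
      refine ⟨i, hi.trans ?_⟩
      by_cases hi : i = j
      · subst hi
        rw [Function.update_self]
        exact hs3
      · rw [Function.update_of_ne hi]
    · rintro ⟨i, hi⟩
      by_cases hij : i = j
      · subst hij
        rw [Function.update_self] at hi
        exact hT.ne hs1 hi.symm
      · rw [Function.update_of_ne hij] at hi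
        exact hij (hr.injective hi)
  · exact ⟨r, hr, hv⟩

section rank

variable {K : Type} [Field K] {d : ℕ}

theorem eq_zero_of_rank {M : Matrix (Fin d) (Fin d) K} (h : M.rank = 0) : M = 0 := by
  have hb := LinearMap.range_eq_bot.1 (Submodule.finrank_eq_zero.1 h)
  apply Matrix.mulVec_injective
  funext x
  have := LinearMap.congr_fun hb x
  rw [Matrix.mulVecLin_apply] at this
  rw [this]
  simp

theorem rank_sub_add {P : Matrix (Fin d) (Fin d) K} (h : P * P = P) :
    P.rank + (1 - P).rank ≤ d := by
  have := Matrix.rank_add_rank_le_card_of_mul_eq_zero (A := P) (B := 1 - P) (by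
    rw [mul_sub, mul_one, h, sub_self])
  simpa using this

theorem rank_one_mul {A Z B : Matrix (Fin d) (Fin d) K} (hZ : Z.rank ≤ 1) (h : A * Z * B = 0)
    (hB : Z * B ≠ 0) : A * Z = 0 := by
  have hle : LinearMap.range (Z * B).mulVecLin ≤ LinearMap.range Z.mulVecLin := by
    rintro _ ⟨x, rfl⟩
    refine ⟨B.mulVec x, ?_⟩
    simp only [Matrix.mulVecLin_apply, Matrix.mulVec_mulVec]
  have hne : (Z * B).rank ≠ 0 := fun h0 => hB (eq_zero_of_rank h0)
  have hrk : (Z * B).rank ≤ Z.rank := Matrix.rank_mul_le_left Z B
  have hran : LinearMap.range (Z * B).mulVecLin = LinearMap.range Z.mulVecLin :=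
    Submodule.eq_of_le_of_finrank_eq hle (by
      change (Z * B).rank = Z.rank
      omega)
  apply Matrix.mulVec_injective
  funext x
  have hx : Z.mulVec x ∈ LinearMap.range (Z * B).mulVecLin := by
    rw [hran]
    exact ⟨x, rfl⟩
  obtain ⟨y, hy⟩ := hx
  rw [Matrix.mulVecLin_apply] at hy
  rw [← Matrix.mulVec_mulVec, ← hy, Matrix.mulVec_mulVec, ← mul_assoc, h]
  simp

theorem filter_single {v : V} : ∀ {l : List V}, l.Nodup → v ∈ l →
    l.filter (fun x => x ∈ ({v} : Finset V)) = [v] := by
  intro l
  induction l with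
  | nil => intro _ h; simp at h
  | cons a l ih =>
    intro hn hv
    rw [List.nodup_cons] at hn
    by_cases ha : a = v
    · subst ha
      rw [List.filter_cons_of_pos (by simp)]
      congr 1
      rw [List.filter_eq_nil_iff]
      intro x hx
      have : x ≠ a := by
        rintro rfl
        exact hn.1 hx
      simpa using this
    · rw [List.filter_cons_of_neg (by simpa using ha)]
      exact ih hn.2 ((List.mem_cons.1 hv).resolve_left fun e => ha e.symm)

theorem rank_step (hT : Oriented T) {l l' : List V} (hn' : l'.Nodup)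
    (hp' : l'.Pairwise (fun a b => ¬ T b a)) (hsub : ∀ x ∈ l, x ∈ l') {x : V} (hx : x ∈ l')
    (hx' : x ∉ l) (φ : HK T →ₙ* Matrix (Fin d) (Fin d) K) (hφ : Function.Injective φ) :
    (φ (wd T l')).rank < (φ (wd T l)).rank := by
  have hz := absorb hT l' hn' hp'
  obtain ⟨e1, e2⟩ := absorb_word (l := l) fun x hx => hz x (hsub x hx)
  obtain ⟨e3, -⟩ := absorb_word (l := l') hz
  refine rank_lt (φ (wd T l)) (φ (wd T l'))
      (by rw [← map_mul, e1]) (by rw [← map_mul, e2]) (by rw [← map_mul, e3]) ?_
  intro h
  have := congrArg (chi T x) (hφ h)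
  rw [chi_not_mem hx', chi_mem hx] at this
  exact one_ne_zero this

theorem rank_set (hT : Oriented T) {L : List V} (hn : L.Nodup)
    (hp : L.Pairwise (fun a b => ¬ T b a)) (φ : HK T →ₙ* Matrix (Fin d) (Fin d) K)
    (hφ : Function.Injective φ) (B D : Finset V) (hBD : Disjoint B D) (hD : ∀ x ∈ D, x ∈ L) :
    (φ (wd T (L.filter fun x => x ∈ B ∪ D))).rank + D.card ≤
      (φ (wd T (L.filter fun x => x ∈ B))).rank := by
  induction D using Finset.induction_on with
  | empty => simp
  | insert x D hx ih =>
    have ih' := ih (hBD.mono_right (Finset.subset_insert x D)) fun y hy =>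
      hD y (Finset.mem_insert_of_mem hy)
    have hxB : x ∉ B := fun h => Finset.disjoint_left.1 hBD h (Finset.mem_insert_self x D)
    have hlt := rank_step hT (l := L.filter fun y => y ∈ B ∪ D)
      (l' := L.filter fun y => y ∈ B ∪ insert x D) (hn.filter _)
      (hp.sublist List.filter_sublist) (by
        intro y hy
        rw [List.mem_filter] at hy ⊢
        refine ⟨hy.1, ?_⟩
        have h3 : y ∈ B ∪ D := by simpa using hy.2
        have h4 : y ∈ B ∪ insert x D :=
          Finset.union_subset_union_right (Finset.subset_insert x D) h3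
        simpa using h4) (x := x) (by
        rw [List.mem_filter]
        refine ⟨hD x (Finset.mem_insert_self x D), ?_⟩
        simp) (by
        rw [List.mem_filter]
        simp [hxB, hx]) φ hφ
    rw [Finset.card_insert_of_notMem hx]
    omega

/-- The product of two complementary projections of rank one. -/
theorem mul_N_eq_zero (hT : Oriented T) (φ : HK T →ₙ* Matrix (Fin d) (Fin d) K)
    (hφ : Function.Injective φ) (hrk : ∀ v, (1 - φ (gen T v)).rank ≤ 1) {v w : V} (hvw : v ≠ w)
    (h : ¬ T v w) : (1 - φ (gen T v)) * (1 - φ (gen T w)) = 0 := by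
  have hid : ∀ v, φ (gen T v) * φ (gen T v) = φ (gen T v) := fun v => by
    rw [← map_mul, gen_idem]
  obtain ⟨g1, g2⟩ : φ (gen T w) * φ (gen T v) * φ (gen T w) = φ (gen T w) * φ (gen T v) ∧
      φ (gen T v) * φ (gen T w) * φ (gen T v) = φ (gen T w) * φ (gen T v) := by
    by_cases hwv : T w v
    · rw [← map_mul, ← map_mul, ← map_mul, ← map_mul, gen_L hvw.symm hwv h, gen_R hvw.symm hwv h]
      exact ⟨rfl, rfl⟩
    · have hc := gen_comm hvw h hwv
      constructor
      · rw [← map_mul, ← map_mul, mul_assoc, hc, ← mul_assoc, gen_idem]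
      · rw [← map_mul, ← map_mul, ← map_mul, hc, mul_assoc, gen_idem]
  set P := φ (gen T v) with hP
  set Q := φ (gen T w) with hQ
  have hPP : P * P = P := hid v
  have hQQ : Q * Q = Q := hid w
  have c1 : (1 - Q) * ((1 - P) * (1 - Q)) = (1 - P) * (1 - Q) := by
    calc (1 - Q) * ((1 - P) * (1 - Q)) = 1 - P - Q + Q * P - Q + P * Q + Q * Q - Q * P * Q := by
          noncomm_ring
      _ = 1 - P - Q + Q * P - Q + P * Q + Q - Q * P := by rw [hQQ, g1]
      _ = _ := by noncomm_ring
  have c2 : ((1 - P) * (1 - Q)) * (1 - P) = (1 - P) * (1 - Q) := by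
    calc ((1 - P) * (1 - Q)) * (1 - P) = 1 - Q - P + P * Q - P + Q * P + P * P - P * Q * P := by
          noncomm_ring
      _ = 1 - Q - P + P * Q - P + Q * P + P - Q * P := by rw [hPP, g2]
      _ = _ := by noncomm_ring
  have c3 : (1 - P) * ((1 - P) * (1 - Q)) = (1 - P) * (1 - Q) := by
    calc (1 - P) * ((1 - P) * (1 - Q)) = (1 - P - P + P * P) * (1 - Q) := by noncomm_ring
      _ = (1 - P - P + P) * (1 - Q) := by rw [hPP]
      _ = _ := by noncomm_ring
  have c4 : ((1 - P) * (1 - Q)) * (1 - Q) = (1 - P) * (1 - Q) := by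
    calc ((1 - P) * (1 - Q)) * (1 - Q) = (1 - P) * (1 - Q - Q + Q * Q) := by noncomm_ring
      _ = (1 - P) * (1 - Q - Q + Q) := by rw [hQQ]
      _ = _ := by noncomm_ring
  by_contra hB
  set B := (1 - P) * (1 - Q) with hBdef
  have hBB : B * B = B := by
    calc B * B = B * ((1 - P) * (1 - Q)) := rfl
      _ = B * (1 - P) * (1 - Q) := (mul_assoc _ _ _).symm
      _ = B := by rw [c2, c4]
  have hrB : B.rank ≠ 0 := fun h0 => hB (eq_zero_of_rank h0)
  have e1 : 1 - P = B := by
    by_contra hne
    have := rank_lt (1 - P) B c3 c2 hBB hne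
    have := hrk v
    rw [← hP] at this
    omega
  have e2 : 1 - Q = B := by
    by_contra hne
    have := rank_lt (1 - Q) B c1 c4 hBB hne
    have := hrk w
    rw [← hQ] at this
    omega
  have e3 : P = Q := by
    have := e1.trans e2.symm
    exact sub_right_injective this
  have e4 := congrArg (chi T v) (hφ e3)
  rw [chi_gen, chi_gen, if_pos rfl, if_neg fun e => hvw e.symm] at e4
  exact zero_ne_one e4

theorem lower_two [Fintype V] (hT : Oriented T) (h1 : Disj T) (h2 : NoPath T) {c : ℕ}
    {r : Fin c → V} (hr : Transv T r) {i j : Fin c} (hij : i ≠ j)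
    (φ : HK T →ₙ* Matrix (Fin d) (Fin d) K) (hφ : Function.Injective φ) :
    Fintype.card V + 2 ≤ d + c := by
  obtain ⟨L, hn, hm, hp, hc⟩ := hr.exists_list h1 h2
  have hri : r i ∉ L := by rw [hm]; simp
  have hrj : r j ∉ L := by rw [hm]; simp
  have h3 := lower_list' hT hn hp hri φ hφ
  by_contra hcon
  have hd : d + c = Fintype.card V + 1 := by omega
  -- ranks along a sorted list
  have hfull : ∀ {r' : Fin c → V}, Transv T r' → ∀ L' : List V, L'.Nodup →
      (∀ x, x ∈ L' ↔ x ∉ Set.range r') → L'.Pairwise (fun a b => ¬ T b a) →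
      L'.length + c = Fintype.card V →
      (φ (wd T L')).rank ≠ 0 ∧ (φ (wd T L')).rank + L'.length ≤ (φ 1).rank ∧
      ∀ v ∈ L', (φ (wd T L')).rank + L'.length ≤ (φ (gen T v)).rank + 1 := by
    intro r' hr' L' hn' hm' hp' hc'
    have hall : L'.filter (fun x => x ∈ L'.toFinset) = L' := by
      rw [List.filter_eq_self]
      intro x hx
      simpa using hx
    refine ⟨?_, ?_, ?_⟩
    · intro h0
      have h0' := eq_zero_of_rank h0
      have hi' : r' i ∉ L' := by rw [hm']; simp
      have h3 : φ (wd T L' * gen T (r' i)) = φ (wd T L') := by rw [map_mul, h0', zero_mul]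
      have h4 := congrArg (chi T (r' i)) (hφ h3)
      rw [map_mul, chi_gen, if_pos rfl, mul_zero, chi_not_mem hi'] at h4
      exact zero_ne_one h4
    · have := rank_set hT hn' hp' φ hφ ∅ L'.toFinset (Finset.disjoint_empty_left _)
        (fun x hx => List.mem_toFinset.1 hx)
      rw [Finset.empty_union, hall, List.toFinset_card_of_nodup hn'] at this
      have h5 : L'.filter (fun x => x ∈ (∅ : Finset V)) = [] := by
        rw [List.filter_eq_nil_iff]
        simp
      rwa [h5, wd_nil] at this
    · intro v hv
      have hv' : v ∈ L'.toFinset := List.mem_toFinset.2 hv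
      have := rank_set hT hn' hp' φ hφ {v} (L'.toFinset.erase v) (by
          rw [Finset.disjoint_singleton_left]
          exact Finset.notMem_erase v _)
        (fun x hx => List.mem_toFinset.1 (Finset.mem_of_mem_erase hx))
      rw [← Finset.insert_eq, Finset.insert_erase hv', hall, Finset.card_erase_of_mem hv',
        List.toFinset_card_of_nodup hn'] at this
      have h5 := filter_single hn' hv
      rw [h5, wd_cons, wd_nil, mul_one] at this
      have h8 : 0 < L'.length := List.length_pos_of_mem hv
      omega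
  obtain ⟨f1, f2, -⟩ := hfull hr L hn hm hp hc
  have hone : φ 1 * φ 1 = φ 1 := by rw [← map_mul, mul_one]
  have hr1 := rank_sub_add hone
  have hrk1 : (φ 1).rank ≤ d := by omega
  have hφ1 : φ 1 = 1 := by
    have : (1 - φ 1).rank = 0 := by omega
    have := eq_zero_of_rank this
    rw [sub_eq_zero] at this
    exact this.symm
  have hrkL : (φ (wd T L)).rank ≤ 1 := by omega
  have hrk : ∀ v, (1 - φ (gen T v)).rank ≤ 1 := by
    intro v
    obtain ⟨r', hr', hv⟩ := hr.avoid hT h2 v
    obtain ⟨L', hn', hm', hp', hc'⟩ := hr'.exists_list h1 h2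
    obtain ⟨f3, -, f4⟩ := hfull hr' L' hn' hm' hp' hc'
    have f5 := f4 v ((hm' v).2 hv)
    have f6 := rank_sub_add (P := φ (gen T v)) (by rw [← map_mul, gen_idem])
    omega
  have hN := fun {v w : V} => mul_N_eq_zero hT φ hφ hrk (v := v) (w := w)
  -- no path from the cycle of `r i` to that of `r j`
  have hkey : ∀ (l : List V) (v : V), ¬ ReflTransGen T v (r j) →
      (1 - φ (gen T v)) * φ (wd T l) * (1 - φ (gen T (r j))) = 0 := by
    intro l
    induction l with
    | nil =>
      intro v hv
      rw [wd_nil, hφ1, mul_one]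
      exact hN (fun e => hv (by rw [e])) (fun h => hv (ReflTransGen.single h))
    | cons k l ih =>
      intro v hv
      rw [wd_cons, map_mul]
      have e1 : (1 - φ (gen T v)) * (φ (gen T k) * φ (wd T l)) * (1 - φ (gen T (r j))) =
          (1 - φ (gen T v)) * φ (wd T l) * (1 - φ (gen T (r j))) -
          (1 - φ (gen T v)) * (1 - φ (gen T k)) * φ (wd T l) * (1 - φ (gen T (r j))) := by
        noncomm_ring
      rw [e1, ih v hv, zero_sub, neg_eq_zero]
      by_cases hk : ReflTransGen T k (r j)
      · have hvk : v ≠ k := by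
          rintro rfl
          exact hv hk
        rw [hN hvk fun h => hv (ReflTransGen.head h hk), zero_mul, zero_mul]
      · have := ih k hk
        rw [mul_assoc, mul_assoc, ← mul_assoc (1 - φ (gen T k)), this, mul_zero]
  have hz := hkey L (r i) fun h => hij (hr.inj i j h)
  have hcase : ∀ v, v ∉ L → φ (gen T v) * φ (wd T L) ≠ φ (wd T L) ∧
      φ (wd T L) * φ (gen T v) ≠ φ (wd T L) := by
    intro v hv
    constructor
    · intro h
      rw [← map_mul] at h
      have h4 := congrArg (chi T v) (hφ h)
      rw [map_mul, chi_gen, if_pos rfl, zero_mul, chi_not_mem hv] at h4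
      exact zero_ne_one h4
    · intro h
      rw [← map_mul] at h
      have h4 := congrArg (chi T v) (hφ h)
      rw [map_mul, chi_gen, if_pos rfl, mul_zero, chi_not_mem hv] at h4
      exact zero_ne_one h4
  by_cases hB : φ (wd T L) * (1 - φ (gen T (r j))) = 0
  · rw [mul_sub, mul_one, sub_eq_zero] at hB
    exact (hcase (r j) hrj).2 hB.symm
  · have := rank_one_mul hrkL hz hB
    rw [sub_mul, one_mul, sub_eq_zero] at this
    exact (hcase (r i) hri).1 this.symm

end rank

end Pool.Agent.H3.HK
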