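import Pool.Agent.H3.HK.Harm
import Pool.Agent.H3.HK.Compare

set_option autoImplicit false

/-!
# Representations `e_i ↦ 1 - p_i q_i`
-/

namespace Pool.Agent.H3.HK

open Classical Relation Matrix

variable {V : Type} [LinearOrder V] [Fintype V] {T : V → V → Prop}

section PQ

variable {K : Type} [CommRing K] {J : Type} [Fintype J]

/-- the projection `p_i q_i` -/
noncomputable def NN (P : Matrix J V K) (Q : Matrix V J K) (i : V) : Matrix J J K :=
  P * Matrix.single i i (1 : K) * Q

theorem NN_mul {P : Matrix J V K} {Q : Matrix V J K} {A : V → V → K} (h : Q * P = 1 - Matrix.of A)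
    (i j : V) : NN P Q i * NN P Q j = P * Matrix.single i j ((1 - Matrix.of A) i j) * Q := by
  have e : NN P Q i * NN P Q j =
      P * (Matrix.single i i (1 : K) * (Q * P) * Matrix.single j j (1 : K)) * Q := by
    simp only [NN, Matrix.mul_assoc]
  rw [e, h, Matrix.single_mul_mul_single, one_mul, mul_one]

theorem NN_idem (hT : Oriented T) {P : Matrix J V K} {Q : Matrix V J K} {A : V → V → K}
    (h : Q * P = 1 - Matrix.of A) (hA : ∀ k l, ¬ T k l → A k l = 0) (i : V) :
    NN P Q i * NN P Q i = NN P Q i := by
  rw [NN_mul h, Matrix.sub_apply, Matrix.one_apply_eq, Matrix.of_apply, hA i i (hT.irrefl i), sub_zero]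
  rfl

theorem NN_zero {P : Matrix J V K} {Q : Matrix V J K} {A : V → V → K}
    (h : Q * P = 1 - Matrix.of A) (hA : ∀ k l, ¬ T k l → A k l = 0) {i j : V} (hij : i ≠ j)
    (hT : ¬ T i j) : NN P Q i * NN P Q j = 0 := by
  rw [NN_mul h, Matrix.sub_apply, Matrix.one_apply_ne hij, Matrix.of_apply, hA i j hT, sub_zero,
    Matrix.single_zero, Matrix.mul_zero, Matrix.zero_mul]

/-- The representation. -/
noncomputable def repPQ (hT : Oriented T) {P : Matrix J V K} {Q : Matrix V J K}
    {A : V → V → K} (h : Q * P = 1 - Matrix.of A) (hA : ∀ k l, ¬ T k l → A k l = 0) :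
    HK T →* Matrix J J K :=
  PresentedMonoid.lift (fun i => 1 - NN P Q i) (by
    intro x y hxy
    have hid := NN_idem hT h hA
    cases hxy with
    | idem i =>
      simp only [map_mul, FreeMonoid.lift_eval_of]
      calc (1 - NN P Q i) * (1 - NN P Q i) = 1 - NN P Q i - NN P Q i + NN P Q i * NN P Q i := by
            noncomm_ring
        _ = 1 - NN P Q i := by rw [hid]; abel
    | comm i j hij h1 h2 =>
      simp only [map_mul, FreeMonoid.lift_eval_of]
      have e1 := NN_zero h hA hij h1
      have e2 := NN_zero h hA hij.symm h2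
      calc (1 - NN P Q i) * (1 - NN P Q j) = 1 - NN P Q i - NN P Q j + NN P Q i * NN P Q j := by
            noncomm_ring
        _ = 1 - NN P Q i - NN P Q j + NN P Q j * NN P Q i := by rw [e1, e2]
        _ = _ := by noncomm_ring
    | braid i j hij h1 h2 => exact absurd h2 (hT i j h1)
    | arrowL i j hij h1 h2 =>
      simp only [map_mul, FreeMonoid.lift_eval_of]
      have e2 := NN_zero h hA hij.symm h2
      calc (1 - NN P Q i) * (1 - NN P Q j) * (1 - NN P Q i) =
          1 - NN P Q i - NN P Q j - NN P Q i + NN P Q i * NN P Q j + NN P Q i * NN P Q i +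
            NN P Q j * NN P Q i - NN P Q i * (NN P Q j * NN P Q i) := by noncomm_ring
        _ = 1 - NN P Q i - NN P Q j - NN P Q i + NN P Q i * NN P Q j + NN P Q i := by
          rw [e2, hid, mul_zero, sub_zero, add_zero]
        _ = _ := by noncomm_ring
    | arrowR i j hij h1 h2 =>
      simp only [map_mul, FreeMonoid.lift_eval_of]
      have e2 := NN_zero h hA hij.symm h2
      calc (1 - NN P Q j) * (1 - NN P Q i) * (1 - NN P Q j) =
          1 - NN P Q i - NN P Q j - NN P Q j + NN P Q i * NN P Q j + NN P Q j * NN P Q j +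
            NN P Q j * NN P Q i - (NN P Q j * NN P Q i) * NN P Q j := by noncomm_ring
        _ = 1 - NN P Q i - NN P Q j - NN P Q j + NN P Q i * NN P Q j + NN P Q j := by
          rw [e2, hid, zero_mul, sub_zero, add_zero]
        _ = _ := by noncomm_ring)

theorem MM_cons (A : V → V → K) (i : V) (w : List V) :
    MM A (i :: w) = MM A w + Matrix.single i i 1 * (1 - MM A w + Matrix.of A * MM A w) := by
  ext k l
  by_cases hk : k = i
  · subst hk
    rw [MM_cons_self, Matrix.add_apply, Matrix.single_mul_apply_same, one_mul, Matrix.add_apply,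
      Matrix.sub_apply, Matrix.one_apply, Matrix.mul_apply]
    simp only [Matrix.of_apply]
    ring
  · rw [MM_cons_ne _ hk, Matrix.add_apply, Matrix.single_mul_apply_of_ne _ _ _ _ _ hk, add_zero]

theorem repPQ_wd (hT : Oriented T) {P : Matrix J V K} {Q : Matrix V J K}
    {A : V → V → K} (h : Q * P = 1 - Matrix.of A) (hA : ∀ k l, ¬ T k l → A k l = 0) (w : List V) :
    repPQ hT h hA (wd T w) = 1 - P * MM A w * Q := by
  induction w with
  | nil => simp [MM]
  | cons i w ih =>
    have e : repPQ hT h hA (gen T i) = 1 - NN P Q i := PresentedMonoid.lift_of _ _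
    rw [wd_cons, map_mul, ih, e, MM_cons]
    have e2 : NN P Q i * (P * MM A w * Q) =
        P * (Matrix.single i i 1 * ((1 - Matrix.of A) * MM A w)) * Q := by
      rw [← h]
      simp only [NN, Matrix.mul_assoc]
    have e3 : (1 - NN P Q i) * (1 - P * MM A w * Q) =
        1 - P * MM A w * Q - NN P Q i + NN P Q i * (P * MM A w * Q) := by noncomm_ring
    rw [e3, e2, NN]
    simp only [Matrix.mul_add, Matrix.add_mul, Matrix.mul_sub, Matrix.sub_mul, Matrix.mul_one,
      Matrix.one_mul]
    abel

end PQ

section coef

variable {R : Type} [CommRing R]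

open Polynomial in
theorem pow_indep {ι : Type} [Fintype ι] (n : ι → ℕ) (hn : Function.Injective n) (u : ι → R)
    (h : ∑ i, C (u i) * (X : R[X]) ^ n i = 0) (i : ι) : u i = 0 := by
  have h1 := congrArg (fun p => coeff p (n i)) h
  simp only [finsetSum_coeff, coeff_C_mul, coeff_X_pow, coeff_zero] at h1
  rw [Finset.sum_eq_single i] at h1
  · simpa using h1
  · intro j _ hj
    rw [if_neg fun e => hj (hn e.symm), mul_zero]
  · intro hcon
    exact absurd (Finset.mem_univ _) hcon

theorem MM_map {S : Type} [CommRing S] (f : R →+* S) (A : V → V → R) : ∀ (w : List V) (k l : V),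
    f (MM A w k l) = MM (fun k l => f (A k l)) w k l := by
  intro w
  induction w with
  | nil => intro k l; simp [MM]
  | cons i w ih =>
    intro k l
    by_cases hk : k = i
    · subst hk
      rw [MM_cons_self, MM_cons_self, map_add, map_sum]
      congr 1
      · split_ifs
        · exact map_one f
        · exact map_zero f
      · refine Finset.sum_congr rfl fun j _ => ?_
        rw [map_mul, ih]
    · rw [MM_cons_ne _ hk, MM_cons_ne _ hk, ih]

end coef

end Pool.Agent.H3.HK
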