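import Pool.Agent.H3.HK.Words

set_option autoImplicit false

/-!
# The update representation of the Hecke-Kiselman monoid of an oriented digraph
-/

namespace Pool.Agent.H3.HK

open Classical

variable {V : Type} [Fintype V] {T : V → V → Prop} {R : Type} [CommRing R]

/-- The matrix of the generator `i`: the identity matrix with row `i` replaced by the weights of
the arrows leaving `i`. -/
noncomputable def E (T : V → V → Prop) (a : V → V → R) (i : V) : Matrix V V R :=
  Matrix.of fun k l => if k = i then (if T i l then a i l else 0) else if k = l then 1 else 0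

/-- the action of the generator `i` -/
noncomputable def upd (T : V → V → Prop) (a : V → V → R) (i : V) (f : V → R) : V → R :=
  Function.update f i (∑ l, if T i l then a i l * f l else 0)

theorem E_mulVec (a : V → V → R) (i : V) (f : V → R) : (E T a i).mulVec f = upd T a i f := by
  funext k
  simp only [E, Matrix.mulVec, dotProduct, Matrix.of_apply, upd]
  by_cases h : k = i
  · subst h
    simp
  · simp [h]

theorem upd_indep (a : V → V → R) {i j : V} (h : ¬ T i j) (f : V → R) (x : R) :
    (∑ l, if T i l then a i l * Function.update f j x l else 0) =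
      ∑ l, if T i l then a i l * f l else 0 := by
  refine Finset.sum_congr rfl fun l _ => ?_
  by_cases hl : l = j
  · subst hl
    simp [h]
  · simp [Function.update_of_ne hl]

theorem upd_self (a : V → V → R) (i : V) (f : V → R) :
    upd T a i f i = ∑ l, if T i l then a i l * f l else 0 := by
  simp [upd]

theorem upd_ne (a : V → V → R) {i k : V} (h : k ≠ i) (f : V → R) : upd T a i f k = f k := by
  simp [upd, h]

theorem upd_sum (a : V → V → R) {i j : V} (h : ¬ T i j) (f : V → R) :
    (∑ l, if T i l then a i l * upd T a j f l else 0) =
      ∑ l, if T i l then a i l * f l else 0 := upd_indep a h f _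

theorem E_idem (hT : Oriented T) (a : V → V → R) (i : V) : E T a i * E T a i = E T a i := by
  apply Matrix.mulVec_injective
  funext f
  rw [← Matrix.mulVec_mulVec, E_mulVec, E_mulVec]
  funext k
  by_cases h : k = i
  · subst h
    rw [upd_self, upd_sum a (hT.irrefl k), upd_self]
  · rw [upd_ne a h]

theorem E_comm (a : V → V → R) {i j : V} (hij : i ≠ j) (h1 : ¬ T i j) (h2 : ¬ T j i) :
    E T a i * E T a j = E T a j * E T a i := by
  apply Matrix.mulVec_injective
  funext f
  rw [← Matrix.mulVec_mulVec, ← Matrix.mulVec_mulVec, E_mulVec, E_mulVec, E_mulVec, E_mulVec]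
  funext k
  by_cases h : k = i
  · subst h
    rw [upd_self, upd_sum a h1, upd_ne a hij, upd_self]
  · by_cases h' : k = j
    · subst h'
      rw [upd_ne a h, upd_self, upd_self, upd_sum a h2]
    · rw [upd_ne a h, upd_ne a h', upd_ne a h', upd_ne a h]

theorem E_L (hT : Oriented T) (a : V → V → R) {i j : V} (h1 : T i j) :
    E T a i * E T a j * E T a i = E T a i * E T a j := by
  have h2 := hT i j h1
  have hij := hT.ne h1
  apply Matrix.mulVec_injective
  funext f
  rw [mul_assoc, ← Matrix.mulVec_mulVec, ← Matrix.mulVec_mulVec, ← Matrix.mulVec_mulVec,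
    E_mulVec, E_mulVec, E_mulVec, E_mulVec, E_mulVec]
  funext k
  by_cases h : k = i
  · subst h
    rw [upd_self, upd_self]
    refine Finset.sum_congr rfl fun l _ => ?_
    by_cases hl : T k l
    · rw [if_pos hl, if_pos hl]
      congr 1
      by_cases hlj : l = j
      · subst hlj
        rw [upd_self, upd_self, upd_sum a h2]
      · rw [upd_ne a hlj, upd_ne a hlj, upd_ne a (hT.ne hl).symm]
    · rw [if_neg hl, if_neg hl]
  · rw [upd_ne a h, upd_ne a h]
    by_cases h' : k = j
    · subst h'
      rw [upd_self, upd_self, upd_sum a h2]
    · rw [upd_ne a h', upd_ne a h', upd_ne a h]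

theorem E_R (hT : Oriented T) (a : V → V → R) {i j : V} (h1 : T i j) :
    E T a j * E T a i * E T a j = E T a i * E T a j := by
  have h2 := hT i j h1
  have hij := hT.ne h1
  apply Matrix.mulVec_injective
  funext f
  rw [mul_assoc, ← Matrix.mulVec_mulVec, ← Matrix.mulVec_mulVec,
    E_mulVec, E_mulVec, E_mulVec]
  funext k
  by_cases h : k = j
  · subst h
    rw [upd_self, upd_sum a h2, upd_sum a (hT.irrefl k), upd_ne a hij.symm, upd_self]
  · rw [upd_ne a h]

/-- The update representation. -/
noncomputable def rep (hT : Oriented T) (a : V → V → R) : HK T →* Matrix V V R :=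
  PresentedMonoid.lift (E T a) (by
    intro x y h
    cases h with
    | idem i => simpa using E_idem hT a i
    | comm i j h h1 h2 => simpa using E_comm a h h1 h2
    | braid i j h h1 h2 => exact absurd h2 (hT i j h1)
    | arrowL i j h h1 h2 => simpa using E_L hT a h1
    | arrowR i j h h1 h2 => simpa using E_R hT a h1)

/-- the action of a word -/
noncomputable def act (T : V → V → Prop) (a : V → V → R) : List V → (V → R) → (V → R)
  | [], f => f
  | i :: w, f => upd T a i (act T a w f)

theorem rep_mulVec (hT : Oriented T) (a : V → V → R) (w : List V) (f : V → R) :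
    (rep hT a (wd T w)).mulVec f = act T a w f := by
  induction w with
  | nil => simp [act]
  | cons i w ih =>
    rw [wd_cons, map_mul, ← Matrix.mulVec_mulVec, ih, act]
    have : rep hT a (gen T i) = E T a i := PresentedMonoid.lift_of _ _
    rw [this, E_mulVec]

/-- The minimal non-subwords of `w` starting with `k`. -/
noncomputable def PF (T : V → V → Prop) : List V → V → Finset (List V)
  | [], k => {[k]}
  | i :: w, k => if k = i then (Finset.univ.filter (T i)).biUnion fun j =>
      (PF T w j).image (List.cons i) else PF T w k

theorem PF_cons_self (i : V) (w : List V) : PF T (i :: w) i =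
    (Finset.univ.filter (T i)).biUnion fun j => (PF T w j).image (List.cons i) := by
  rw [PF, if_pos rfl]

theorem PF_cons_ne {i k : V} (h : k ≠ i) (w : List V) : PF T (i :: w) k = PF T w k := by
  rw [PF, if_neg h]

theorem PF_head : ∀ (w : List V) (k : V) (p : List V), p ∈ PF T w k →
    ∃ q, p = k :: q ∧ p.IsChain T := by
  intro w
  induction w with
  | nil =>
    intro k p hp
    rw [PF, Finset.mem_singleton] at hp
    subst hp
    exact ⟨[], rfl, List.isChain_singleton k⟩
  | cons i w ih =>
    intro k p hp
    by_cases h : k = i
    · subst h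
      rw [PF_cons_self, Finset.mem_biUnion] at hp
      obtain ⟨j, hj, hp⟩ := hp
      rw [Finset.mem_image] at hp
      obtain ⟨p', hp', rfl⟩ := hp
      obtain ⟨q, rfl, hq⟩ := ih j p' hp'
      refine ⟨j :: q, rfl, List.isChain_cons_cons.2 ⟨?_, hq⟩⟩
      simpa using hj
    · rw [PF_cons_ne h] at hp
      exact ih k p hp

/-- weight of a walk -/
def wt (a : V → V → R) : List V → R
  | [] => 1
  | [_] => 1
  | k :: j :: q => a k j * wt a (j :: q)

/-- value of a function at the end of a walk -/
def lst (f : V → R) (p : List V) : R := (p.getLast?).elim 0 f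

theorem act_eq (a : V → V → R) (f : V → R) : ∀ (w : List V) (k : V),
    act T a w f k = ∑ p ∈ PF T w k, wt a p * lst f p := by
  intro w
  induction w with
  | nil =>
    intro k
    simp [act, PF, wt, lst]
  | cons i w ih =>
    intro k
    by_cases h : k = i
    · subst h
      rw [act, upd_self, PF_cons_self, Finset.sum_biUnion]
      · rw [Finset.sum_filter]
        refine Finset.sum_congr rfl fun j _ => ?_
        by_cases hj : T k j
        · rw [if_pos hj, if_pos hj, ih j, Finset.mul_sum, Finset.sum_image]
          · refine Finset.sum_congr rfl fun p hp => ?_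
            obtain ⟨q, rfl, -⟩ := PF_head w j p hp
            simp only [wt, lst, List.getLast?_cons_cons]
            ring
          · intro x _ y _ hxy
            exact (List.cons_injective (a := k)) hxy
        · rw [if_neg hj, if_neg hj]
      · intro j _ j' _ hjj'
        rw [Function.onFun, Finset.disjoint_left]
        intro p hp hp'
        rw [Finset.mem_image] at hp hp'
        obtain ⟨p1, h1, rfl⟩ := hp
        obtain ⟨p2, h2, h3⟩ := hp'
        obtain ⟨q1, rfl, -⟩ := PF_head w j p1 h1
        obtain ⟨q2, rfl, -⟩ := PF_head w j' p2 h2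
        simp only [List.cons.injEq, true_and] at h3
        exact hjj' h3.1.symm
    · rw [act, upd_ne a h, PF_cons_ne h, ih k]

theorem sublist_iff_PF : ∀ (w : List V) (k : V) (q : List V), (k :: q).IsChain T →
    (List.Sublist (k :: q) w ↔ ∀ p ∈ PF T w k, ¬ p <+: (k :: q)) := by
  intro w
  induction w with
  | nil =>
    intro k q _
    simp [PF]
  | cons i w ih =>
    intro k q hq
    by_cases h : k = i
    · subst h
      rw [List.cons_sublist_cons, PF_cons_self]
      cases q with
      | nil =>
        simp only [List.nil_sublist, true_iff]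
        intro p hp hpre
        rw [Finset.mem_biUnion] at hp
        obtain ⟨j, hj, hp⟩ := hp
        rw [Finset.mem_image] at hp
        obtain ⟨p', hp', rfl⟩ := hp
        obtain ⟨q', rfl, -⟩ := PF_head w j p' hp'
        have := hpre.length_le
        simp at this
      | cons j q' =>
        rw [List.isChain_cons_cons] at hq
        rw [ih j q' hq.2]
        constructor
        · intro hall p hp hpre
          rw [Finset.mem_biUnion] at hp
          obtain ⟨j', hj', hp⟩ := hp
          rw [Finset.mem_image] at hp
          obtain ⟨p', hp', rfl⟩ := hp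
          rw [List.cons_prefix_cons] at hpre
          obtain ⟨q'', rfl, -⟩ := PF_head w j' p' hp'
          have hjj : j' = j := (List.cons_prefix_cons.1 hpre.2).1
          subst hjj
          exact hall _ hp' hpre.2
        · intro hall p hp hpre
          refine hall (k :: p) ?_ (List.cons_prefix_cons.2 ⟨rfl, hpre⟩)
          rw [Finset.mem_biUnion]
          exact ⟨j, by simpa using hq.1, Finset.mem_image_of_mem _ hp⟩
    · rw [PF_cons_ne h, ← ih k q hq]
      constructor
      · exact sublist_of_cons_ne fun e => h e.symm
      · intro hs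
        exact hs.cons i

/-- The representation is faithful as soon as finite sets of walks with the same ends are
determined by the sum of their weights. -/
theorem rep_injective (hT : Oriented T) (a : V → V → R)
    (hind : ∀ (k l : V) (S S' : Finset (List V)),
      (∀ p ∈ S, (∃ q, p = k :: q) ∧ p.IsChain T ∧ p.getLast? = some l) →
      (∀ p ∈ S', (∃ q, p = k :: q) ∧ p.IsChain T ∧ p.getLast? = some l) →
      ∑ p ∈ S, wt a p = ∑ p ∈ S', wt a p → S = S') :
    Function.Injective (rep hT a) := by
  intro x y hxy
  obtain ⟨w, hw, rfl⟩ := exists_min x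
  obtain ⟨w', hw', rfl⟩ := exists_min y
  have hsum : ∀ (v : List V) (k l : V), act T a v (Pi.single l 1) k =
      ∑ p ∈ (PF T v k).filter (fun p => p.getLast? = some l), wt a p := by
    intro v k l
    rw [act_eq, Finset.sum_filter]
    refine Finset.sum_congr rfl fun p hp => ?_
    obtain ⟨q, rfl, -⟩ := PF_head v k p hp
    obtain ⟨z, hz⟩ : ∃ z, (k :: q).getLast? = some z := by
      rw [← Option.isSome_iff_exists]
      simp
    simp only [lst, hz, Option.elim_some, Option.some.injEq]
    by_cases hzl : z = l
    · subst hzl
      simp
    · simp [hzl]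
  have hPF : ∀ k, PF T w k = PF T w' k := by
    intro k
    have hl : ∀ l, (PF T w k).filter (fun p => p.getLast? = some l) =
        (PF T w' k).filter (fun p => p.getLast? = some l) := by
      intro l
      refine hind k l _ _ ?_ ?_ ?_
      · intro p hp
        rw [Finset.mem_filter] at hp
        obtain ⟨q, h1, h2⟩ := PF_head w k p hp.1
        exact ⟨⟨q, h1⟩, h2, hp.2⟩
      · intro p hp
        rw [Finset.mem_filter] at hp
        obtain ⟨q, h1, h2⟩ := PF_head w' k p hp.1
        exact ⟨⟨q, h1⟩, h2, hp.2⟩
      · rw [← hsum, ← hsum, ← rep_mulVec hT, ← rep_mulVec hT, hxy]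
    ext p
    constructor
    · intro hp
      obtain ⟨q, rfl, -⟩ := PF_head w k p hp
      obtain ⟨z, hz⟩ : ∃ z, (k :: q).getLast? = some z := by
        rw [← Option.isSome_iff_exists]
        simp
      have : (k :: q) ∈ (PF T w k).filter (fun p => p.getLast? = some z) :=
        Finset.mem_filter.2 ⟨hp, hz⟩
      rw [hl z] at this
      exact (Finset.mem_filter.1 this).1
    · intro hp
      obtain ⟨q, rfl, -⟩ := PF_head w' k p hp
      obtain ⟨z, hz⟩ : ∃ z, (k :: q).getLast? = some z := by
        rw [← Option.isSome_iff_exists]
        simp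
      have : (k :: q) ∈ (PF T w' k).filter (fun p => p.getLast? = some z) :=
        Finset.mem_filter.2 ⟨hp, hz⟩
      rw [← hl z] at this
      exact (Finset.mem_filter.1 this).1
  refine wd_eq_of_SW hT _ w w' rfl hw hw' ?_
  ext p
  constructor
  · rintro ⟨h1, h2, h3⟩
    refine ⟨h1, h2, ?_⟩
    cases p with
    | nil => exact absurd rfl h1
    | cons k q =>
      rw [sublist_iff_PF w' k q h2, ← hPF k, ← sublist_iff_PF w k q h2]
      exact h3
  · rintro ⟨h1, h2, h3⟩
    refine ⟨h1, h2, ?_⟩
    cases p with
    | nil => exact absurd rfl h1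
    | cons k q =>
      rw [sublist_iff_PF w k q h2, hPF k, ← sublist_iff_PF w' k q h2]
      exact h3

end Pool.Agent.H3.HK
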