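import Pool.Agent.H3.HK.PQ
import Pool.Agent.H3.HK.Generic

set_option autoImplicit false

/-!
# A faithful representation of dimension `m - c + 2`
-/

namespace Pool.Agent.H3.HK

open Classical Relation Matrix Polynomial

variable {V : Type} [LinearOrder V] [Fintype V] {T : V → V → Prop} {c : ℕ} {r : Fin c → V}

/-- the vertices which are not representatives -/
abbrev Rest (r : Fin c → V) : Type := {v : V // v ∉ Set.range r}

theorem sum_rest {M : Type} [AddCommMonoid M] (F : V → M) (hF : ∀ i, F (r i) = 0) :
    ∑ s : Rest r, F s = ∑ v, F v := by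
  rw [← Finset.sum_subtype (Finset.univ.filter fun v => v ∉ Set.range r) (by simp) F,
    Finset.sum_filter]
  refine Finset.sum_congr rfl fun v _ => ?_
  by_cases h : v ∈ Set.range r
  · obtain ⟨i, rfl⟩ := h
    simp [hF]
  · simp only [h, not_false_eq_true, if_true]

section PQ

variable {R : Type} [CommRing R] (A : V → V → R) (g : Fin c → V → R)

/-- indicator of the representatives -/
noncomputable def eR (R : Type) [CommRing R] (r : Fin c → V) (n : ℕ) (v : V) : R[X] :=
  ∑ j : Fin c, if v = r j then X ^ (n * (j : ℕ)) else 0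

theorem sum_eR (n : ℕ) (F : V → R[X]) :
    ∑ v, eR R r n v * F v = ∑ j : Fin c, X ^ (n * (j : ℕ)) * F (r j) := by
  simp only [eR, Finset.sum_mul]
  rw [Finset.sum_comm]
  refine Finset.sum_congr rfl fun j _ => ?_
  simp

/-- the coefficients -/
noncomputable def Bm (r : Fin c → V) (v : V) (s : V) : R :=
  (if v = s then 1 else 0) - ∑ j, if v = r j then g j s else 0

theorem sum_Bm (F : V → R) (s : V) :
    ∑ v, F v * Bm g r v s = F s - ∑ j, F (r j) * g j s := by
  simp only [Bm, mul_sub, Finset.mul_sum, Finset.sum_sub_distrib]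
  congr 1
  · simp
  · rw [Finset.sum_comm]
    refine Finset.sum_congr rfl fun j _ => ?_
    simp

/-- the columns `p_v` -/
noncomputable def Pm (r : Fin c → V) : Matrix (Rest r ⊕ Bool) V R[X] :=
  Matrix.of fun x v => Sum.elim (fun s : Rest r => C ((if s.1 = v then 1 else 0) - A s v))
    (fun b => if b then eR R r 1 v else 0) x

/-- the rows `q_v` -/
noncomputable def Qm (r : Fin c → V) : Matrix V (Rest r ⊕ Bool) R[X] :=
  Matrix.of fun v x => Sum.elim (fun s : Rest r => C (Bm g r v s))
    (fun b => if b then 0 else eR R r c v) x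

variable {A g}

theorem Bm_G (hr : Function.Injective r) (hg0 : ∀ j i, g j (r i) = 0)
    (hg : ∀ j w, A (r j) w + ∑ s, g j s * A s w = g j w + if w = r j then 1 else 0) (v w : V) :
    ∑ s : Rest r, Bm g r v s * ((if s.1 = w then 1 else 0) - A s w) =
      (if v = w then 1 else 0) - A v w := by
  by_cases hv : v ∈ Set.range r
  · obtain ⟨j, rfl⟩ := hv
    have h1 : ∀ s : Rest r, Bm g r (r j) s = - g j s := by
      intro s
      rw [Bm, if_neg fun e => s.2 ⟨j, e⟩, zero_sub, neg_inj]
      have h2 : ∀ i, (if r j = r i then g i s else 0) = if j = i then g i s else 0 := by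
        intro i
        by_cases hij : j = i
        · rw [if_pos hij, if_pos (by rw [hij])]
        · rw [if_neg hij, if_neg fun e => hij (hr e)]
      simp only [h2]
      simp
    simp only [h1]
    rw [sum_rest (F := fun s => - g j s * ((if s = w then 1 else 0) - A s w)) fun i => by
      rw [hg0, neg_zero, zero_mul]]
    have h3 : ∑ s, - g j s * ((if s = w then 1 else 0) - A s w) =
        - g j w + ∑ s, g j s * A s w := by
      have h4 : ∀ s, - g j s * ((if s = w then 1 else 0) - A s w) =
          - (if s = w then g j s else 0) + g j s * A s w := by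
        intro s
        split_ifs <;> ring
      simp only [h4]
      rw [Finset.sum_add_distrib, Finset.sum_neg_distrib]
      simp
    rw [h3]
    have h5 := hg j w
    have h6 : (if w = r j then (1 : R) else 0) = if r j = w then 1 else 0 := by
      by_cases h : w = r j
      · rw [if_pos h, if_pos h.symm]
      · rw [if_neg h, if_neg fun e => h e.symm]
    rw [h6] at h5
    linear_combination h5
  · have h1 : ∀ s : Rest r, Bm g r v s = if v = s.1 then 1 else 0 := by
      intro s
      rw [Bm, sub_eq_self]
      refine Finset.sum_eq_zero fun j _ => ?_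
      rw [if_neg fun e => hv ⟨j, e.symm⟩]
    simp only [h1]
    rw [Finset.sum_eq_single (⟨v, hv⟩ : Rest r)]
    · rw [if_pos rfl, one_mul]
    · intro s _ hs
      rw [if_neg fun e => hs (Subtype.ext e.symm), zero_mul]
    · intro hcon
      exact absurd (Finset.mem_univ _) hcon

theorem Qm_mul_Pm (hr : Function.Injective r) (hg0 : ∀ j i, g j (r i) = 0)
    (hg : ∀ j w, A (r j) w + ∑ s, g j s * A s w = g j w + if w = r j then 1 else 0) :
    Qm g r * Pm A r = 1 - Matrix.of fun k l => C (A k l) := by
  ext v w : 2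
  rw [Matrix.mul_apply, Fintype.sum_sum_type, Fintype.sum_bool]
  simp only [Qm, Pm, Matrix.of_apply, Sum.elim_inl, Sum.elim_inr, if_true, zero_mul,
    Bool.false_eq_true, if_false, mul_zero, add_zero, ← map_mul, ← map_sum]
  rw [Bm_G hr hg0 hg, Matrix.sub_apply, Matrix.one_apply, Matrix.of_apply, map_sub]
  split_ifs
  · rw [map_one]
  · rw [map_zero]

/-- The key injectivity statement. -/
theorem PDQ_inj (h1 : Disj T) (h2 : NoPath T) (hr : Transv T r)
    (hA : ∀ k l, ¬ T k l → A k l = 0) (D : V → V → R)
    (h : Pm A r * Matrix.of (fun k l => C (D k l)) * Qm g r = 0) : D = 0 := by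
  have hent : ∀ x y, ∑ l, (∑ k, Pm A r x k * C (D k l)) * Qm g r l y = 0 := by
    intro x y
    have := congrFun (congrFun h x) y
    rw [Matrix.mul_apply] at this
    simp only [Matrix.mul_apply, Matrix.of_apply, Matrix.zero_apply] at this
    exact this
  -- products with `G`
  have hG : ∀ (s : Rest r) (F : V → R), ∑ k, ((if s.1 = k then 1 else 0) - A s k) * F k =
      F s - ∑ k, A s k * F k := by
    intro s F
    simp only [sub_mul, Finset.sum_sub_distrib]
    congr 1
    simp
  -- the four blocks
  have b1 : ∀ s s' : Rest r, ∑ k, ((if s.1 = k then 1 else 0) - A s k) *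
      (∑ l, D k l * Bm g r l s') = 0 := by
    intro s s'
    have e := hent (Sum.inl s) (Sum.inl s')
    simp only [Pm, Qm, Matrix.of_apply, Sum.elim_inl, ← map_mul, ← map_sum] at e
    have e' := C_eq_zero.1 e
    refine Eq.trans ?_ e'
    simp only [Finset.mul_sum, Finset.sum_mul]
    rw [Finset.sum_comm]
    exact Finset.sum_congr rfl fun l _ => Finset.sum_congr rfl fun k _ => by ring
  have b2 : ∀ (j : Fin c) (s' : Rest r), ∑ l, D (r j) l * Bm g r l s' = 0 := by
    intro j s'
    have e := hent (Sum.inr true) (Sum.inl s')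
    simp only [Pm, Qm, Matrix.of_apply, Sum.elim_inl, Sum.elim_inr, if_true, sum_eR] at e
    have e2 : ∑ j : Fin c, C (∑ l, D (r j) l * Bm g r l s') * (X : R[X]) ^ (j : ℕ) = 0 := by
      rw [← e]
      simp only [map_sum, map_mul, Finset.sum_mul]
      rw [Finset.sum_comm]
      refine Finset.sum_congr rfl fun l _ => Finset.sum_congr rfl fun j _ => ?_
      rw [one_mul]
      ring
    exact pow_indep (fun j : Fin c => (j : ℕ)) Fin.val_injective _ e2 j
  have b3 : ∀ (s : Rest r) (i : Fin c), ∑ k, ((if s.1 = k then 1 else 0) - A s k) *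
      D k (r i) = 0 := by
    intro s i
    have e := hent (Sum.inl s) (Sum.inr false)
    simp only [Pm, Qm, Matrix.of_apply, Sum.elim_inl, Sum.elim_inr, Bool.false_eq_true,
      if_false, ← map_mul, ← map_sum] at e
    simp only [mul_comm _ (eR R r c _), sum_eR] at e
    have hc : 0 < c := i.pos
    refine pow_indep (fun i : Fin c => c * (i : ℕ)) (fun a b hab => ?_)
      (fun i => ∑ k, ((if s.1 = k then 1 else 0) - A s k) * D k (r i)) ?_ i
    · exact Fin.ext (Nat.eq_of_mul_eq_mul_left hc hab)
    · rw [← e]
      exact Finset.sum_congr rfl fun j _ => mul_comm _ _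
  have b4 : ∀ j i : Fin c, D (r j) (r i) = 0 := by
    intro j i
    have e := hent (Sum.inr true) (Sum.inr false)
    simp only [Pm, Qm, Matrix.of_apply, Sum.elim_inr, Bool.false_eq_true, if_true,
      if_false] at e
    simp only [mul_comm _ (eR R r c _), sum_eR] at e
    have e2 : ∑ x : Fin c × Fin c, C (D (r x.1) (r x.2)) * (X : R[X]) ^
        ((x.1 : ℕ) + c * (x.2 : ℕ)) = 0 := by
      rw [← e, Fintype.sum_prod_type_right]
      refine Finset.sum_congr rfl fun i _ => ?_
      rw [Finset.mul_sum]
      refine Finset.sum_congr rfl fun j _ => ?_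
      rw [one_mul, pow_add]
      ring
    refine pow_indep (fun x : Fin c × Fin c => (x.1 : ℕ) + c * (x.2 : ℕ)) ?_ _ e2 (j, i)
    rintro ⟨a, b⟩ ⟨a', b'⟩ hab
    have hab' : (a : ℕ) + c * (b : ℕ) = (a' : ℕ) + c * (b' : ℕ) := hab
    have ha := a.2
    have ha' := a'.2
    have hc : 0 < c := a.pos
    have h3 : (b : ℕ) = b' := by
      have h4 := congrArg (fun n => n / c) hab'
      simp only [Nat.add_mul_div_left _ _ hc, Nat.div_eq_of_lt ha, Nat.div_eq_of_lt ha',
        zero_add] at h4
      exact h4
    rw [h3] at hab'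
    have h5 : a = a' := Fin.ext (by omega)
    rw [h5, Fin.ext h3]
  -- conclusion
  have c1 : ∀ (v : V) (i : Fin c), D v (r i) = 0 := by
    intro v i
    refine eq_zero_of_harmonic h1 h2 hr A hA (fun v => D v (r i)) (fun j => b4 j i) ?_ v
    intro s hs
    have e := b3 ⟨s, hs⟩ i
    rw [hG ⟨s, hs⟩ fun k => D k (r i)] at e
    exact sub_eq_zero.1 e
  have c2 : ∀ (v : V) (s' : Rest r), ∑ l, D v l * Bm g r l s' = 0 := by
    intro v s'
    refine eq_zero_of_harmonic h1 h2 hr A hA (fun v => ∑ l, D v l * Bm g r l s')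
      (fun j => b2 j s') ?_ v
    intro s hs
    have e := b1 ⟨s, hs⟩ s'
    rw [hG ⟨s, hs⟩ fun k => ∑ l, D k l * Bm g r l s'] at e
    exact sub_eq_zero.1 e
  funext v l
  by_cases hl : l ∈ Set.range r
  · obtain ⟨i, rfl⟩ := hl
    exact c1 v i
  · have e := c2 v ⟨l, hl⟩
    rw [sum_Bm] at e
    have e2 : ∑ j, D v (r j) * g j l = 0 :=
      Finset.sum_eq_zero fun j _ => by rw [c1, zero_mul]
    rw [e2, sub_zero] at e
    exact e

end PQ

theorem card_rest (hr : Function.Injective r) :
    Fintype.card (Rest r ⊕ Bool) + c = Fintype.card V + 2 := by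
  have h5 : (Finset.univ.filter fun v => v ∉ Set.range r) = Finset.univ \ Finset.univ.image r := by
    ext x
    simp
  have h6 : Fintype.card (Rest r) = (Finset.univ.filter fun v => v ∉ Set.range r).card :=
    Fintype.card_subtype _
  have : c ≤ Fintype.card V := by
    have := Fintype.card_le_of_injective r hr
    rwa [Fintype.card_fin] at this
  rw [Fintype.card_sum, Fintype.card_bool, h6, h5,
    Finset.card_sdiff_of_subset (Finset.subset_univ _), Finset.card_image_of_injective _ hr,
    Finset.card_univ, Finset.card_univ, Fintype.card_fin]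
  omega

/-- An embedding of the coefficients in the complex numbers. -/
theorem exists_embed (W : Type) [Finite W] :
    ∃ f : Polynomial (MvPolynomial W ℚ) →+* ℂ, Function.Injective f := by
  obtain ⟨Y, hY⟩ := exists_indep (Option W)
  refine ⟨(MvPolynomial.aeval Y : MvPolynomial (Option W) ℚ →ₐ[ℚ] ℂ).toRingHom.comp
    (MvPolynomial.optionEquivLeft ℚ W).symm.toRingEquiv.toRingHom, ?_⟩
  change Function.Injective ((MvPolynomial.aeval Y : MvPolynomial (Option W) ℚ →ₐ[ℚ] ℂ) ∘
    (MvPolynomial.optionEquivLeft ℚ W).symm)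
  exact Function.Injective.comp hY (MvPolynomial.optionEquivLeft ℚ W).symm.injective

/-- The upper bound. -/
theorem upper_two (hT : Oriented T) (h1 : Disj T) (h2 : NoPath T) (hr : Transv T r) {n : ℕ}
    (hn : n + c = Fintype.card V + 2) :
    ∃ φ : HK T →ₙ* Matrix (Fin n) (Fin n) ℂ, Function.Injective φ := by
  set A : V → V → MvPolynomial (V × V) ℚ := fun k l => if T k l then aC T k l else 0 with hAdef
  have hA : ∀ k l, ¬ T k l → A k l = 0 := fun k l h => by rw [hAdef]; simp only; rw [if_neg h]
  have hA1 : ∀ k l, T k l → ReflTransGen T l k → A k l = 1 := fun k l h h' => by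
    rw [hAdef]
    simp only
    rw [if_pos h, aC, if_pos h']
  choose g hg0 hg using fun j => exists_g h1 h2 hr A hA hA1 j
  have hg' : ∀ j w, A (r j) w + ∑ s, g j s * A s w = g j w + if w = r j then 1 else 0 := by
    intro j w
    rw [hg j w]
    congr 1
    by_cases h : w = r j
    · rw [if_pos h, if_pos h]
    · rw [if_neg h, if_neg h]
  have hQP := Qm_mul_Pm (A := A) (g := g) hr.injective hg0 hg'
  have hCA : ∀ k l, ¬ T k l → (fun k l => C (A k l)) k l = 0 := fun k l h => by
    simp only
    rw [hA k l h, map_zero]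
  have hinj : Function.Injective (repPQ hT hQP hCA) := by
    intro x y hxy
    obtain ⟨w, hw, rfl⟩ := exists_min x
    obtain ⟨w', hw', rfl⟩ := exists_min y
    rw [repPQ_wd, repPQ_wd] at hxy
    have h3 : Pm A r * MM (fun k l => C (A k l)) w * Qm g r =
        Pm A r * MM (fun k l => C (A k l)) w' * Qm g r := sub_right_injective hxy
    have h4 : Pm A r * Matrix.of (fun k l => C (MM A w k l - MM A w' k l)) * Qm g r = 0 := by
      have h5 : (Matrix.of (fun k l => C (MM A w k l - MM A w' k l)) : Matrix V V _) =
          MM (fun k l => C (A k l)) w - MM (fun k l => C (A k l)) w' := by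
        refine Matrix.ext fun k l => ?_
        rw [Matrix.of_apply, Matrix.sub_apply, map_sub, MM_map, MM_map]
      rw [h5, Matrix.mul_sub, Matrix.sub_mul, h3, sub_self]
    have h6 := PDQ_inj h1 h2 hr hA (fun k l => MM A w k l - MM A w' k l) h4
    refine MM_inj hT h1 h2 hw hw' ?_
    refine Matrix.ext fun k l => ?_
    have := congrFun (congrFun h6 k) l
    simp only [Pi.zero_apply] at this
    exact sub_eq_zero.1 this
  obtain ⟨f, hf⟩ := exists_embed (V × V)
  have hcard : Fintype.card (Fin n) = Fintype.card (Rest r ⊕ Bool) := by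
    have := card_rest hr.injective
    rw [Fintype.card_fin]
    omega
  obtain ⟨e⟩ : Nonempty (Fin n ≃ Rest r ⊕ Bool) := ⟨Fintype.equivOfCardEq hcard⟩
  refine ⟨⟨fun x => ((repPQ hT hQP hCA x).map f).submatrix e e, ?_⟩, ?_⟩
  · intro x y
    rw [map_mul, Matrix.map_mul, Matrix.submatrix_mul_equiv]
  · intro x y h
    apply hinj
    refine Matrix.ext fun i j => ?_
    have h7 := congrFun (congrFun h (e.symm i)) (e.symm j)
    simp only [MulHom.coe_mk, Matrix.submatrix_apply, Equiv.apply_symm_apply,
      Matrix.map_apply] at h7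
    exact hf h7

end Pool.Agent.H3.HK
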