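import Pool.Agent.H3.HK.Defs

set_option autoImplicit false

/-!
# Oriented digraphs: an element of the Hecke-Kiselman monoid is determined by the walks which are
subwords of a word for it
-/

namespace Pool.Agent.H3.HK

variable {V : Type} {T : V → V → Prop}

/-- no loops and no unoriented edges -/
def Oriented (T : V → V → Prop) : Prop := ∀ i j, T i j → ¬ T j i

theorem Oriented.irrefl (hT : Oriented T) (i : V) : ¬ T i i := fun h => hT i i h h

theorem Oriented.ne (hT : Oriented T) {i j : V} (h : T i j) : i ≠ j := by
  rintro rfl
  exact hT.irrefl i h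

/-- no letter of `y` has an arrow to `i` -/
theorem wd_R1 (hT : Oriented T) (i : V) (y : List V) (hy : ∀ x ∈ y, ¬ T x i) :
    gen T i * wd T y * gen T i = gen T i * wd T y := by
  induction y using List.reverseRecOn with
  | nil => simp [gen_idem]
  | append_singleton y x ih =>
    have ih' := ih fun z hz => hy z (List.mem_append_left _ hz)
    have hx := hy x (by simp)
    rw [wd_append, wd_cons, wd_nil, mul_one]
    by_cases hxi : x = i
    · subst hxi
      simp only [mul_assoc]
      rw [gen_idem]
    · by_cases h : T i x
      · have h1 : gen T i * (wd T y * gen T x) * gen T i =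
            gen T i * wd T y * gen T x * gen T i := by simp only [mul_assoc]
        rw [h1, ← ih']
        have h2 := gen_L (fun h2 => hxi h2.symm) h hx
        calc gen T i * wd T y * gen T i * gen T x * gen T i
            = gen T i * wd T y * (gen T i * gen T x * gen T i) := by simp only [mul_assoc]
          _ = gen T i * wd T y * (gen T i * gen T x) := by rw [h2]
          _ = gen T i * wd T y * gen T i * gen T x := by simp only [mul_assoc]
          _ = gen T i * wd T y * gen T x := by rw [ih']
          _ = gen T i * (wd T y * gen T x) := by simp only [mul_assoc]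
      · have h2 := gen_comm hxi hx h
        calc gen T i * (wd T y * gen T x) * gen T i
            = gen T i * wd T y * (gen T x * gen T i) := by simp only [mul_assoc]
          _ = gen T i * wd T y * (gen T i * gen T x) := by rw [h2]
          _ = gen T i * wd T y * gen T i * gen T x := by simp only [mul_assoc]
          _ = gen T i * wd T y * gen T x := by rw [ih']
          _ = gen T i * (wd T y * gen T x) := by simp only [mul_assoc]

/-- no letter of `y` has an arrow from `i` -/
theorem wd_R2 (hT : Oriented T) (i : V) (y : List V) (hy : ∀ x ∈ y, ¬ T i x) :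
    gen T i * wd T y * gen T i = wd T y * gen T i := by
  induction y with
  | nil => simp [gen_idem]
  | cons x y ih =>
    have ih' := ih fun z hz => hy z (List.mem_cons_of_mem _ hz)
    have hx := hy x List.mem_cons_self
    rw [wd_cons]
    by_cases hxi : x = i
    · subst hxi
      simp only [← mul_assoc]
      rw [gen_idem]
    · by_cases h : T x i
      · have h2 := gen_R hxi h hx
        calc gen T i * (gen T x * wd T y) * gen T i
            = gen T i * gen T x * (wd T y * gen T i) := by simp only [mul_assoc]
          _ = gen T i * gen T x * (gen T i * wd T y * gen T i) := by rw [ih']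
          _ = (gen T i * gen T x * gen T i) * wd T y * gen T i := by simp only [mul_assoc]
          _ = gen T x * gen T i * wd T y * gen T i := by rw [h2]
          _ = gen T x * (gen T i * wd T y * gen T i) := by simp only [mul_assoc]
          _ = gen T x * wd T y * gen T i := by rw [ih', ← mul_assoc]
      · have h2 := gen_comm hxi h hx
        calc gen T i * (gen T x * wd T y) * gen T i
            = (gen T i * gen T x) * wd T y * gen T i := by simp only [mul_assoc]
          _ = gen T x * gen T i * wd T y * gen T i := by rw [h2]
          _ = gen T x * (gen T i * wd T y * gen T i) := by simp only [mul_assoc]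
          _ = gen T x * wd T y * gen T i := by rw [ih', ← mul_assoc]

/-- words of minimal length -/
def Min (T : V → V → Prop) (w : List V) : Prop :=
  ∀ w', wd T w' = wd T w → w.length ≤ w'.length

theorem exists_min (x : HK T) : ∃ w, Min T w ∧ wd T w = x := by
  classical
  have h : ∃ n, ∃ w, wd T w = x ∧ w.length = n := by
    obtain ⟨w, hw⟩ := exists_wd x
    exact ⟨_, w, hw, rfl⟩
  obtain ⟨w, hw, hl⟩ := Nat.find_spec h
  refine ⟨w, fun w' hw' => ?_, hw⟩
  rw [hl]
  exact Nat.find_min' h ⟨w', hw'.trans hw, rfl⟩

theorem Min.suffix {x y : List V} (h : Min T (x ++ y)) : Min T y := by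
  intro y' hy'
  have h1 := h (x ++ y') (by rw [wd_append, wd_append, hy'])
  simpa using h1

theorem Min.of_eq {w w' : List V} (h : Min T w) (hw : wd T w' = wd T w)
    (hl : w'.length = w.length) : Min T w' := by
  intro v hv
  rw [hl]
  exact h v (hv.trans hw)

/-- between two occurrences of `i` in a minimal word there is an arrow to `i` -/
theorem Min.exists_in (hT : Oriented T) {x y z : List V} {i : V}
    (h : Min T (x ++ i :: (y ++ i :: z))) : ∃ k ∈ y, T k i := by
  by_contra hcon
  push Not at hcon
  have h1 := h (x ++ i :: (y ++ z)) (by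
    simp only [wd_append, wd_cons]
    rw [← mul_assoc (gen T i) (wd T y) (gen T i * wd T z), ← mul_assoc _ (gen T i) (wd T z),
      wd_R1 hT i y hcon, mul_assoc (gen T i)])
  simp at h1

/-- between two occurrences of `i` in a minimal word there is an arrow from `i` -/
theorem Min.exists_out (hT : Oriented T) {x y z : List V} {i : V}
    (h : Min T (x ++ i :: (y ++ i :: z))) : ∃ j ∈ y, T i j := by
  by_contra hcon
  push Not at hcon
  have h1 := h (x ++ (y ++ i :: z)) (by
    simp only [wd_append, wd_cons]
    have h2 := wd_R2 hT i y hcon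
    calc wd T x * (wd T y * (gen T i * wd T z))
        = wd T x * (wd T y * gen T i * wd T z) := by simp only [mul_assoc]
      _ = wd T x * (gen T i * wd T y * gen T i * wd T z) := by rw [h2]
      _ = wd T x * (gen T i * (wd T y * (gen T i * wd T z))) := by simp only [mul_assoc])
  simp at h1

theorem first_occ {i : V} : ∀ {v : List V}, i ∈ v → ∃ y z, v = y ++ i :: z ∧ i ∉ y := by
  classical
  intro v
  induction v with
  | nil => intro h; simp at h
  | cons a v ih =>
    intro h
    by_cases ha : a = i
    · subst ha
      exact ⟨[], v, rfl, by simp⟩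
    · obtain ⟨y, z, h1, h2⟩ := ih ((List.mem_cons.1 h).resolve_left fun h => ha h.symm)
      refine ⟨a :: y, z, by rw [h1]; rfl, ?_⟩
      rw [List.mem_cons, not_or]
      exact ⟨fun h => ha h.symm, h2⟩

/-- the walks which are subwords of `w` -/
def SW (T : V → V → Prop) (w : List V) : Set (List V) :=
  {q | q ≠ [] ∧ q.IsChain T ∧ List.Sublist q w}

theorem sublist_of_cons_ne {i j : V} {q w : List V} (h : i ≠ j)
    (hq : List.Sublist (j :: q) (i :: w)) : List.Sublist (j :: q) w := by
  cases hq with
  | cons _ h1 => exact h1
  | cons_cons _ h1 => exact absurd rfl h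

theorem sublist_of_cons {i : V} {q w : List V}
    (hq : List.Sublist (i :: q) (i :: w)) : List.Sublist q w := List.cons_sublist_cons.1 hq

theorem sublist_of_append {i : V} {q x y : List V} (hi : i ∉ x)
    (hq : List.Sublist (i :: q) (x ++ i :: y)) : List.Sublist q y := by
  induction x with
  | nil => exact sublist_of_cons hq
  | cons a x ih =>
    rw [List.mem_cons, not_or] at hi
    exact ih hi.2 (sublist_of_cons_ne (fun h => hi.1 h.symm) hq)

/-- A position of a minimal word is detected by a walk. -/
theorem exists_detect (hT : Oriented T) : ∀ (n : ℕ) (i : V) (v : List V), v.length = n →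
    Min T (i :: v) → ∃ q, (i :: q).IsChain T ∧ List.Sublist q v ∧ ¬ List.Sublist (i :: q) v := by
  intro n
  induction n using Nat.strong_induction_on with
  | _ n ih =>
    intro i v hv hmin
    by_cases hi : i ∈ v
    · classical
      obtain ⟨y, z, rfl, hy⟩ := first_occ hi
      obtain ⟨j, hj, hij⟩ := Min.exists_out (x := []) hT hmin
      obtain ⟨y1, y2, rfl⟩ := List.append_of_mem hj
      have hmin' : Min T (j :: (y2 ++ i :: z)) := by
        have h1 : i :: ((y1 ++ j :: y2) ++ i :: z) = (i :: y1) ++ j :: (y2 ++ i :: z) := by simp
        rw [h1] at hmin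
        exact hmin.suffix
      obtain ⟨q, hq1, hq2, hq3⟩ := ih (y2 ++ i :: z).length (by
        rw [← hv]; simp; omega) j (y2 ++ i :: z) rfl hmin'
      refine ⟨j :: q, List.isChain_cons_cons.2 ⟨hij, hq1⟩, ?_, ?_⟩
      · have h1 : (y1 ++ j :: y2) ++ i :: z = y1 ++ j :: (y2 ++ i :: z) := by simp
        rw [h1]
        exact (List.cons_sublist_cons.2 hq2).trans (List.sublist_append_right _ _)
      · intro h
        have h1 := sublist_of_append hy h
        exact hq3 (h1.trans ((List.sublist_cons_self _ _).trans (List.sublist_append_right _ _)))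
    · refine ⟨[], List.isChain_singleton i, List.nil_sublist _, fun h => hi ?_⟩
      exact h.subset List.mem_cons_self

/-- Lemma F: the letters before the first `i` are not joined to `i`. -/
theorem not_joined (hT : Oriented T) {i : V} {u x y : List V} (hw : Min T (i :: u))
    (hw' : Min T (x ++ i :: y)) (hx : i ∉ x) (h : SW T (i :: u) = SW T (x ++ i :: y)) :
    ∀ a ∈ x, ¬ T i a ∧ ¬ T a i := by
  intro a ha
  constructor
  · intro hia
    obtain ⟨x1, x2, rfl⟩ := List.append_of_mem ha
    have hmin : Min T (a :: (x2 ++ i :: y)) := by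
      have h1 : (x1 ++ a :: x2) ++ i :: y = x1 ++ a :: (x2 ++ i :: y) := by simp
      rw [h1] at hw'
      exact hw'.suffix
    obtain ⟨q, hq1, hq2, hq3⟩ := exists_detect hT _ a _ rfl hmin
    have h2 : (a :: q) ∈ SW T ((x1 ++ a :: x2) ++ i :: y) := by
      refine ⟨by simp, hq1, ?_⟩
      have h1 : (x1 ++ a :: x2) ++ i :: y = x1 ++ a :: (x2 ++ i :: y) := by simp
      rw [h1]
      exact (List.cons_sublist_cons.2 hq2).trans (List.sublist_append_right _ _)
    rw [← h] at h2
    have hne : i ≠ a := hT.ne hia
    have h3 := sublist_of_cons_ne hne h2.2.2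
    have h4 : (i :: a :: q) ∈ SW T (i :: u) :=
      ⟨by simp, List.isChain_cons_cons.2 ⟨hia, hq1⟩, List.cons_sublist_cons.2 h3⟩
    rw [h] at h4
    have h5 := sublist_of_append hx h4.2.2
    exact hq3 (h5.trans ((List.sublist_cons_self _ _).trans (List.sublist_append_right _ _)))
  · intro hai
    obtain ⟨q, hq1, hq2, hq3⟩ := exists_detect hT _ i _ rfl hw
    have h2 : (i :: q) ∈ SW T (i :: u) := ⟨by simp, hq1, List.cons_sublist_cons.2 hq2⟩
    rw [h] at h2
    have h3 := sublist_of_append hx h2.2.2
    obtain ⟨x1, x2, rfl⟩ := List.append_of_mem ha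
    have h4 : (a :: i :: q) ∈ SW T ((x1 ++ a :: x2) ++ i :: y) := by
      refine ⟨by simp, List.isChain_cons_cons.2 ⟨hai, hq1⟩, ?_⟩
      have h1 : (x1 ++ a :: x2) ++ i :: y = x1 ++ a :: (x2 ++ i :: y) := by simp
      rw [h1]
      refine (List.cons_sublist_cons.2 ?_).trans (List.sublist_append_right _ _)
      exact (List.cons_sublist_cons.2 h3).trans (List.sublist_append_right _ _)
    rw [← h] at h4
    have h5 := sublist_of_cons_ne (hT.ne hai).symm h4.2.2
    exact hq3 ((List.sublist_cons_self _ _).trans h5)

theorem wd_move {i : V} {x y : List V} (hx : i ∉ x) (h : ∀ a ∈ x, ¬ T i a ∧ ¬ T a i) :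
    wd T (x ++ i :: y) = wd T (i :: (x ++ y)) := by
  induction x with
  | nil => rfl
  | cons a x ih =>
    rw [List.mem_cons, not_or] at hx
    have h1 := ih hx.2 fun b hb => h b (List.mem_cons_of_mem _ hb)
    have ha := h a List.mem_cons_self
    rw [List.cons_append, wd_cons, h1, wd_cons, wd_cons, List.cons_append, wd_cons, ← mul_assoc,
      ← mul_assoc, gen_comm (fun e => hx.1 e.symm) ha.2 ha.1]

theorem sublist_move {i : V} {y : List V} : ∀ {x q : List V}, i ∉ x →
    (∀ a ∈ x, ¬ T i a ∧ ¬ T a i) → q.IsChain T →
    (List.Sublist q (x ++ i :: y) ↔ List.Sublist q (i :: (x ++ y))) := by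
  intro x
  induction x with
  | nil => intro q _ _ _; rfl
  | cons a x ih =>
    intro q hx h hq
    rw [List.mem_cons, not_or] at hx
    have ha := h a List.mem_cons_self
    have hne : i ≠ a := hx.1
    have ih' := fun {q : List V} (hq : q.IsChain T) =>
      ih (q := q) hx.2 (fun b hb => h b (List.mem_cons_of_mem _ hb)) hq
    constructor
    · intro hs
      rw [List.cons_append] at hs ⊢
      cases hs with
      | cons _ h1 =>
        have h2 := (ih' hq).1 h1
        cases h2 with
        | cons _ h3 => exact (h3.cons a).cons i
        | cons_cons _ h3 => exact List.cons_sublist_cons.2 (h3.cons a)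
      | cons_cons _ h1 =>
        rename_i q'
        have hq' : q'.IsChain T := hq.tail
        have h2 := (ih' hq').1 h1
        cases h2 with
        | cons _ h3 => exact (List.cons_sublist_cons.2 h3).cons i
        | cons_cons _ h3 => exact absurd (List.isChain_cons_cons.1 hq).1 ha.2
    · intro hs
      rw [List.cons_append] at hs ⊢
      cases hs with
      | cons _ h1 =>
        cases h1 with
        | cons _ h2 => exact ((ih' hq).2 (h2.cons i)).cons a
        | cons_cons _ h2 =>
          rename_i q'
          have hq' : q'.IsChain T := hq.tail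
          exact List.cons_sublist_cons.2 ((ih' hq').2 (h2.cons i))
      | cons_cons _ h1 =>
        rename_i q'
        cases h1 with
        | cons _ h2 => exact ((ih' hq).2 (List.cons_sublist_cons.2 h2)).cons a
        | cons_cons _ h2 => exact absurd (List.isChain_cons_cons.1 hq).1 ha.1

theorem SW_move {i : V} {x y : List V} (hx : i ∉ x) (h : ∀ a ∈ x, ¬ T i a ∧ ¬ T a i) :
    SW T (x ++ i :: y) = SW T (i :: (x ++ y)) := by
  ext q
  constructor
  · rintro ⟨h1, h2, h3⟩
    exact ⟨h1, h2, (sublist_move hx h h2).1 h3⟩
  · rintro ⟨h1, h2, h3⟩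
    exact ⟨h1, h2, (sublist_move hx h h2).2 h3⟩

/-- Lemma D -/
theorem SW_tail (hT : Oriented T) {i : V} {u : List V} (hw : Min T (i :: u)) :
    SW T u = {q | q ∈ SW T (i :: u) ∧
      (q.head? ≠ some i ∨ ∃ k, T k i ∧ (k :: q) ∈ SW T (i :: u))} := by
  ext q
  constructor
  · rintro ⟨h1, h2, h3⟩
    refine ⟨⟨h1, h2, h3.cons i⟩, ?_⟩
    by_cases hq : q.head? = some i
    · right
      obtain ⟨q', rfl⟩ : ∃ q', q = i :: q' := by
        cases q with
        | nil => exact absurd rfl h1
        | cons b q' =>
          simp only [List.head?_cons, Option.some.injEq] at hq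
          exact ⟨q', by rw [hq]⟩
      have hi : i ∈ u := h3.subset List.mem_cons_self
      obtain ⟨a, b, rfl, ha⟩ := first_occ hi
      obtain ⟨k, hk, hki⟩ := Min.exists_in (x := []) hT hw
      refine ⟨k, hki, by simp, List.isChain_cons_cons.2 ⟨hki, h2⟩, ?_⟩
      have h4 := sublist_of_append ha h3
      obtain ⟨a1, a2, rfl⟩ := List.append_of_mem hk
      refine List.Sublist.cons i ?_
      have h5 : (a1 ++ k :: a2) ++ i :: b = a1 ++ k :: (a2 ++ i :: b) := by simp
      rw [h5]
      refine (List.cons_sublist_cons.2 ?_).trans (List.sublist_append_right _ _)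
      exact (List.cons_sublist_cons.2 h4).trans (List.sublist_append_right _ _)
    · exact Or.inl hq
  · rintro ⟨⟨h1, h2, h3⟩, h4⟩
    refine ⟨h1, h2, ?_⟩
    rcases h4 with h4 | ⟨k, hk, h5⟩
    · cases q with
      | nil => exact absurd rfl h1
      | cons b q' =>
        refine sublist_of_cons_ne (fun h => h4 ?_) h3
        rw [← h]
        rfl
    · have h6 := sublist_of_cons_ne (hT.ne hk).symm h5.2.2
      exact (List.sublist_cons_self _ _).trans h6

/-- Theorem A: an element of the monoid of an oriented digraph is determined by the walks which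
are subwords of a minimal word for it. -/
theorem wd_eq_of_SW (hT : Oriented T) : ∀ (n : ℕ) (w w' : List V), w.length = n → Min T w →
    Min T w' → SW T w = SW T w' → wd T w = wd T w' := by
  intro n
  induction n with
  | zero =>
    intro w w' hn _ _ h
    rw [List.length_eq_zero_iff] at hn
    subst hn
    cases w' with
    | nil => rfl
    | cons i u =>
      have h1 : [i] ∈ SW T (i :: u) :=
        ⟨by simp, List.isChain_singleton i, List.cons_sublist_cons.2 (List.nil_sublist _)⟩
      rw [← h] at h1
      have := h1.2.2
      simp at this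
  | succ n ih =>
    intro w w' hn hw hw' h
    cases w with
    | nil => simp at hn
    | cons i u =>
      have h1 : [i] ∈ SW T (i :: u) :=
        ⟨by simp, List.isChain_singleton i, List.cons_sublist_cons.2 (List.nil_sublist _)⟩
      rw [h] at h1
      have hi : i ∈ w' := h1.2.2.subset List.mem_cons_self
      obtain ⟨x, y, rfl, hx⟩ := first_occ hi
      have hj := not_joined hT hw hw' hx h
      have he := wd_move (y := y) hx hj
      have hmin : Min T (i :: (x ++ y)) := hw'.of_eq he.symm (by simp; omega)
      have hS : SW T (i :: u) = SW T (i :: (x ++ y)) := by rw [h, SW_move hx hj]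
      have hS' : SW T u = SW T (x ++ y) := by
        rw [SW_tail hT hw, SW_tail hT hmin, hS]
      have h2 := ih u (x ++ y) (by simpa using hn) (Min.suffix (x := [i]) hw)
        (Min.suffix (x := [i]) hmin) hS'
      rw [he, wd_cons, wd_cons, h2]

end Pool.Agent.H3.HK
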